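import Mathlib

set_option autoImplicit false

namespace Pool.Agent.Helper224.BestApprox

open Filter Topology

/-- A norm on the plane, as a function. -/
structure IsNorm (N : (Fin 2 → ℝ) → ℝ) : Prop where
  eq_zero : ∀ x, N x = 0 → x = 0
  add_le : ∀ x y, N (x + y) ≤ N x + N y
  smul : ∀ (r : ℝ) (x : Fin 2 → ℝ), N (r • x) = |r| * N x

/-- The distance from `k θ` to the integer points, measured by `N`. -/
noncomputable def dst (N : (Fin 2 → ℝ) → ℝ) (θ : Fin 2 → ℝ) (k : ℕ) : ℝ :=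
  ⨅ a : Fin 2 → ℤ, N (fun i => (k : ℝ) * θ i - ((a i : ℤ) : ℝ))

/-- `k` is the denominator of a best approximation to `θ`. -/
def IsBest (N : (Fin 2 → ℝ) → ℝ) (θ : Fin 2 → ℝ) (k : ℕ) : Prop :=
  0 < k ∧ ∀ j : ℕ, 0 < j → j < k → dst N θ k < dst N θ j

/-- The denominators of the best approximations, in increasing order. -/
noncomputable def M (N : (Fin 2 → ℝ) → ℝ) (θ : Fin 2 → ℝ) (ν : ℕ) : ℕ := Nat.nth (IsBest N θ) ν

/-- No nonzero integer multiple of `θ` is an integer point. -/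
def Admissible (θ : Fin 2 → ℝ) : Prop :=
  ∀ q : ℤ, q ≠ 0 → ¬ ∀ i : Fin 2, ∃ a : ℤ, (q : ℝ) * θ i = (a : ℝ)

namespace IsNorm

variable {N : (Fin 2 → ℝ) → ℝ} (hN : IsNorm N)
include hN

lemma zero : N 0 = 0 := by
  have := hN.smul 0 0
  simpa using this

lemma neg (x : Fin 2 → ℝ) : N (-x) = N x := by
  have := hN.smul (-1) x
  simpa using this

lemma nonneg (x : Fin 2 → ℝ) : 0 ≤ N x := by
  have h1 := hN.add_le x (-x)
  rw [add_neg_cancel, hN.zero, hN.neg] at h1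
  linarith

lemma pos {x : Fin 2 → ℝ} (hx : x ≠ 0) : 0 < N x :=
  lt_of_le_of_ne (hN.nonneg x) (fun h => hx (hN.eq_zero x h.symm))

lemma le_mul_norm : ∃ K : ℝ, 0 < K ∧ ∀ x, N x ≤ K * ‖x‖ := by
  refine ⟨N ![1, 0] + N ![0, 1] + 1, ?_, ?_⟩
  · have := hN.nonneg ![1, 0]; have := hN.nonneg ![0, 1]; linarith
  · intro x
    have hx : x = x 0 • ![1, 0] + x 1 • ![0, 1] := by
      ext i; fin_cases i <;> simp
    have h0 : |x 0| ≤ ‖x‖ := by simpa using norm_le_pi_norm x 0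
    have h1 : |x 1| ≤ ‖x‖ := by simpa using norm_le_pi_norm x 1
    have a0 := hN.nonneg ![1, 0]
    have a1 := hN.nonneg ![0, 1]
    calc N x = N (x 0 • ![1, 0] + x 1 • ![0, 1]) := by rw [← hx]
      _ ≤ N (x 0 • ![1, 0]) + N (x 1 • ![0, 1]) := hN.add_le _ _
      _ = |x 0| * N ![1, 0] + |x 1| * N ![0, 1] := by rw [hN.smul, hN.smul]
      _ ≤ ‖x‖ * N ![1, 0] + ‖x‖ * N ![0, 1] := by gcongr
      _ ≤ (N ![1, 0] + N ![0, 1] + 1) * ‖x‖ := by nlinarith [norm_nonneg x]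

lemma continuous : Continuous N := by
  obtain ⟨K, hK, hle⟩ := hN.le_mul_norm
  have key : ∀ x y, N x - N y ≤ K * ‖x - y‖ := by
    intro x y
    have h1 := hN.add_le (x - y) y
    rw [sub_add_cancel] at h1
    have h2 := hle (x - y)
    linarith
  refine (LipschitzWith.of_dist_le_mul (K := ⟨K, hK.le⟩) ?_).continuous
  intro x y
  rw [Real.dist_eq, dist_eq_norm, abs_le]
  constructor
  · have := key y x; rw [norm_sub_rev] at this
    change -(K * ‖x - y‖) ≤ _; linarith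
  · exact key x y

lemma mul_norm_le : ∃ c : ℝ, 0 < c ∧ ∀ x, c * ‖x‖ ≤ N x := by
  have hne : (Metric.sphere (0 : Fin 2 → ℝ) 1).Nonempty := NormedSpace.sphere_nonempty.mpr zero_le_one
  obtain ⟨y, hy, hmin⟩ := (isCompact_sphere (0 : Fin 2 → ℝ) 1).exists_isMinOn hne
    hN.continuous.continuousOn
  have hy1 : ‖y‖ = 1 := by simpa using hy
  have hy0 : y ≠ 0 := by rintro rfl; simp at hy1
  refine ⟨N y, hN.pos hy0, ?_⟩
  intro x
  by_cases hx : x = 0
  · subst hx; simp [hN.zero]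
  · have hx' : 0 < ‖x‖ := norm_pos_iff.mpr hx
    have hmem : (‖x‖⁻¹ • x) ∈ Metric.sphere (0 : Fin 2 → ℝ) 1 := by
      simp [norm_smul, hx'.ne']
    have h2 := isMinOn_iff.mp hmin _ hmem
    rw [hN.smul, abs_of_pos (inv_pos.mpr hx')] at h2
    calc N y * ‖x‖ ≤ (‖x‖⁻¹ * N x) * ‖x‖ := by gcongr
      _ = N x := by field_simp

end IsNorm

/-- projection of the integer vector `(q, a, b)` -/
noncomputable def proj (θ : Fin 2 → ℝ) (w : ℤ × ℤ × ℤ) : Fin 2 → ℝ :=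
  ![(w.1 : ℝ) * θ 0 - (w.2.1 : ℝ), (w.1 : ℝ) * θ 1 - (w.2.2 : ℝ)]

lemma proj_eq (θ : Fin 2 → ℝ) (k : ℤ) (a : Fin 2 → ℤ) :
    (fun i => (k : ℝ) * θ i - ((a i : ℤ) : ℝ)) = proj θ (k, a 0, a 1) := by
  ext i; fin_cases i <;> simp [proj]

lemma proj_neg (θ : Fin 2 → ℝ) (w : ℤ × ℤ × ℤ) : proj θ (-w) = - proj θ w := by
  ext i; fin_cases i <;> simp [proj] <;> ring

section Dist

variable {N : (Fin 2 → ℝ) → ℝ} (hN : IsNorm N) (θ : Fin 2 → ℝ)
include hN

lemma dst_le (k : ℕ) (a b : ℤ) : dst N θ k ≤ N (proj θ ((k : ℤ), a, b)) := by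
  unfold dst
  have hb : BddBelow (Set.range fun a : Fin 2 → ℤ => N (fun i => (k : ℝ) * θ i - ((a i : ℤ) : ℝ))) :=
    ⟨0, by rintro _ ⟨a, rfl⟩; exact hN.nonneg _⟩
  have := ciInf_le hb ![a, b]
  refine this.trans (le_of_eq ?_)
  congr 1
  ext i; fin_cases i <;> simp [proj]

lemma dst_attained (k : ℕ) : ∃ a b : ℤ, N (proj θ ((k : ℤ), a, b)) = dst N θ k := by
  obtain ⟨c, hc, hle⟩ := hN.mul_norm_le
  -- the values
  let f : ℤ × ℤ → ℝ := fun p => N (proj θ ((k : ℤ), p.1, p.2))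
  have hfin : ∀ B : ℝ, {p : ℤ × ℤ | f p ≤ B}.Finite := by
    intro B
    -- bounded box
    let R : ℝ := B / c
    refine Set.Finite.subset ((Set.finite_Icc (⌊(k : ℝ) * θ 0 - R⌋) (⌈(k : ℝ) * θ 0 + R⌉)).prod
      (Set.finite_Icc (⌊(k : ℝ) * θ 1 - R⌋) (⌈(k : ℝ) * θ 1 + R⌉))) ?_
    rintro ⟨a, b⟩ hp
    have h1 : c * ‖proj θ ((k : ℤ), a, b)‖ ≤ B := (hle _).trans hp
    have h2 : ‖proj θ ((k : ℤ), a, b)‖ ≤ R := by
      rw [le_div_iff₀ hc]; linarith
    have h3 := (norm_le_pi_norm (proj θ ((k : ℤ), a, b)) 0).trans h2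
    have h4 := (norm_le_pi_norm (proj θ ((k : ℤ), a, b)) 1).trans h2
    simp only [proj, Matrix.cons_val_zero, Matrix.cons_val_one, Real.norm_eq_abs, abs_le,
      Int.cast_natCast] at h3 h4
    refine ⟨⟨?_, ?_⟩, ⟨?_, ?_⟩⟩
    · exact_mod_cast (Int.floor_le _).trans (show (k : ℝ) * θ 0 - R ≤ (a : ℝ) by linarith [h3.2])
    · exact_mod_cast (show (a : ℝ) ≤ (k : ℝ) * θ 0 + R by linarith [h3.1]).trans (Int.le_ceil _)
    · exact_mod_cast (Int.floor_le _).trans (show (k : ℝ) * θ 1 - R ≤ (b : ℝ) by linarith [h4.2])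
    · exact_mod_cast (show (b : ℝ) ≤ (k : ℝ) * θ 1 + R by linarith [h4.1]).trans (Int.le_ceil _)
  have hne : {p : ℤ × ℤ | f p ≤ f (0, 0)}.Nonempty := ⟨(0, 0), le_refl (f (0, 0))⟩
  obtain ⟨p, hp, hmin⟩ := Set.exists_min_image _ f (hfin (f (0, 0))) hne
  refine ⟨p.1, p.2, le_antisymm ?_ (dst_le hN θ k p.1 p.2)⟩
  unfold dst
  apply le_ciInf
  intro a
  have e := proj_eq θ (k : ℤ) a
  simp only [Int.cast_natCast] at e
  rw [e]
  by_cases ha : f (a 0, a 1) ≤ f (0, 0)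
  · exact hmin (a 0, a 1) ha
  · exact hp.trans (le_of_lt (not_le.mp ha))

lemma dst_pos (hθ : Admissible θ) {k : ℕ} (hk : 0 < k) : 0 < dst N θ k := by
  obtain ⟨a, b, hab⟩ := dst_attained hN θ k
  rw [← hab]
  apply hN.pos
  intro h0
  apply hθ (k : ℤ) (by exact_mod_cast hk.ne')
  intro i
  have h1 := congrFun h0 0
  have h2 := congrFun h0 1
  simp only [proj, Matrix.cons_val_zero, Matrix.cons_val_one, Pi.zero_apply] at h1 h2
  fin_cases i
  · exact ⟨a, by simpa using (sub_eq_zero.mp h1)⟩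
  · exact ⟨b, by simpa using (sub_eq_zero.mp h2)⟩

lemma exists_dst_lt {ε : ℝ} (hε : 0 < ε) : ∃ k : ℕ, 0 < k ∧ dst N θ k < ε := by
  obtain ⟨K, hK, hle⟩ := hN.le_mul_norm
  let x : ℕ → (Fin 2 → ℝ) := fun n i => Int.fract ((n : ℝ) * θ i)
  have hx : ∀ n, x n ∈ Set.Icc (0 : Fin 2 → ℝ) 1 := by
    intro n
    constructor
    · intro i; exact Int.fract_nonneg _
    · intro i; exact (Int.fract_lt_one _).le
  obtain ⟨p, -, φ, hφ, hlim⟩ := (isCompact_Icc : IsCompact (Set.Icc (0 : Fin 2 → ℝ) 1)).tendsto_subseq hx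
  have hc := hlim.cauchySeq
  rw [Metric.cauchySeq_iff] at hc
  obtain ⟨m, hm⟩ := hc (ε / K) (div_pos hε hK)
  have h1 := hm (m + 1) (by omega) m le_rfl
  have hlt : φ m < φ (m + 1) := hφ (Nat.lt_succ_self m)
  refine ⟨φ (m + 1) - φ m, by omega, ?_⟩
  have h2 := dst_le hN θ (φ (m + 1) - φ m) (⌊(φ (m + 1) : ℝ) * θ 0⌋ - ⌊(φ m : ℝ) * θ 0⌋)
    (⌊(φ (m + 1) : ℝ) * θ 1⌋ - ⌊(φ m : ℝ) * θ 1⌋)
  refine h2.trans_lt ?_
  have e : proj θ (((φ (m + 1) - φ m : ℕ) : ℤ), (⌊(φ (m + 1) : ℝ) * θ 0⌋ - ⌊(φ m : ℝ) * θ 0⌋),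
    (⌊(φ (m + 1) : ℝ) * θ 1⌋ - ⌊(φ m : ℝ) * θ 1⌋)) = x (φ (m + 1)) - x (φ m) := by
    ext i
    have hcast : (((φ (m + 1) - φ m : ℕ) : ℤ) : ℝ) = (φ (m + 1) : ℝ) - (φ m : ℝ) := by
      rw [Int.cast_natCast, Nat.cast_sub hlt.le]
    fin_cases i
    · simp only [proj, hcast, x, Pi.sub_apply, Int.cast_sub, Fin.zero_eta, Matrix.cons_val_zero,
        ← Int.self_sub_floor]
      ring
    · simp only [proj, hcast, x, Pi.sub_apply, Int.cast_sub, Fin.mk_one, Matrix.cons_val_one,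
        ← Int.self_sub_floor]
      simp only [Matrix.cons_val_fin_one]
      ring
  rw [e]
  rw [Function.comp_apply, Function.comp_apply, dist_eq_norm] at h1
  calc N _ ≤ K * ‖x (φ (m + 1)) - x (φ m)‖ := hle _
    _ < K * (ε / K) := by gcongr
    _ = ε := by field_simp

lemma isBest_unbounded (hθ : Admissible θ) (n : ℕ) : ∃ k, n < k ∧ IsBest N θ k := by
  classical
  -- minimum of dst over 1..n+1
  have hpos : ∃ δ : ℝ, 0 < δ ∧ ∀ j : ℕ, 0 < j → j ≤ n → δ ≤ dst N θ j := by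
    induction n with
    | zero => exact ⟨1, one_pos, fun j h1 h2 => by omega⟩
    | succ n ih =>
      obtain ⟨δ, hδ, h⟩ := ih
      refine ⟨min δ (dst N θ (n + 1)), lt_min hδ (dst_pos hN θ hθ (Nat.succ_pos n)), ?_⟩
      intro j h1 h2
      rcases Nat.lt_or_ge j (n + 1) with h3 | h3
      · exact (min_le_left _ _).trans (h j h1 (by omega))
      · have : j = n + 1 := by omega
        subst this; exact min_le_right _ _
  obtain ⟨δ, hδ, hle⟩ := hpos
  obtain ⟨k0, hk0, hlt⟩ := exists_dst_lt hN θ hδ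
  have hex : ∃ k, 0 < k ∧ dst N θ k < δ := ⟨k0, hk0, hlt⟩
  refine ⟨Nat.find hex, ?_, (Nat.find_spec hex).1, ?_⟩
  · by_contra hcon
    push Not at hcon
    have h1 := hle _ (Nat.find_spec hex).1 hcon
    exact absurd (Nat.find_spec hex).2 (not_lt.mpr h1)
  · intro j hj1 hj2
    have h1 := Nat.find_min hex hj2
    push Not at h1
    exact (Nat.find_spec hex).2.trans_le (h1 hj1)

lemma isBest_infinite (hθ : Admissible θ) : {k | IsBest N θ k}.Infinite := by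
  rw [Set.infinite_iff_exists_gt]
  intro a
  obtain ⟨k, h1, h2⟩ := isBest_unbounded hN θ hθ a
  exact ⟨k, h2, h1⟩

lemma M_isBest (hθ : Admissible θ) (ν : ℕ) : IsBest N θ (M N θ ν) :=
  Nat.nth_mem_of_infinite (isBest_infinite hN θ hθ) ν

lemma M_strictMono (hθ : Admissible θ) : StrictMono (M N θ) :=
  Nat.nth_strictMono (isBest_infinite hN θ hθ)

/-- no best approximation strictly between consecutive ones -/
lemma M_succ_le (hθ : Admissible θ) {ν k : ℕ} (hk : IsBest N θ k) (h : M N θ ν < k) :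
    M N θ (ν + 1) ≤ k := by
  classical
  obtain ⟨n, hn⟩ : ∃ n, M N θ n = k := by
    have := Nat.range_nth_of_infinite (isBest_infinite hN θ hθ)
    have hk' : k ∈ Set.range (Nat.nth (IsBest N θ)) := by rw [this]; exact hk
    exact hk'
  rw [← hn] at h ⊢
  have h1 : ν < n := (M_strictMono hN θ hθ).lt_iff_lt.mp h
  exact (M_strictMono hN θ hθ).monotone (by omega)

lemma dst_M_succ_lt (hθ : Admissible θ) (ν : ℕ) : dst N θ (M N θ (ν + 1)) < dst N θ (M N θ ν) :=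
  (M_isBest hN θ hθ (ν + 1)).2 _ (M_isBest hN θ hθ ν).1 (M_strictMono hN θ hθ (Nat.lt_succ_self ν))

lemma dst_M_le (hθ : Admissible θ) {ν j : ℕ} (hj : 0 < j) (hj2 : j < M N θ (ν + 1)) :
    dst N θ (M N θ ν) ≤ dst N θ j := by
  classical
  by_contra hcon
  push Not at hcon
  have hex : ∃ k, 0 < k ∧ dst N θ k < dst N θ (M N θ ν) := ⟨j, hj, hcon⟩
  have hle : Nat.find hex ≤ j := Nat.find_min' hex ⟨hj, hcon⟩
  have hspec := Nat.find_spec hex
  have hbest : IsBest N θ (Nat.find hex) := by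
    refine ⟨hspec.1, fun i hi1 hi2 => ?_⟩
    have h1 := Nat.find_min hex hi2
    push Not at h1
    exact hspec.2.trans_le (h1 hi1)
  have hgt : M N θ ν < Nat.find hex := by
    by_contra h2
    push Not at h2
    rcases Nat.lt_or_ge (Nat.find hex) (M N θ ν) with h3 | h3
    · have := (M_isBest hN θ hθ ν).2 _ hspec.1 h3
      linarith [hspec.2]
    · have : Nat.find hex = M N θ ν := le_antisymm h2 h3
      rw [this] at hspec
      exact lt_irrefl _ hspec.2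
  have := M_succ_le hN θ hθ hbest hgt
  omega

lemma dst_M_tendsto (hθ : Admissible θ) {ε : ℝ} (hε : 0 < ε) : ∃ ν0, ∀ ν, ν0 ≤ ν →
    dst N θ (M N θ ν) < ε := by
  obtain ⟨k, hk, hlt⟩ := exists_dst_lt hN θ hε
  refine ⟨k, fun ν hν => ?_⟩
  have h1 : k < M N θ (ν + 1) := by
    have := (M_strictMono hN θ hθ).le_apply (x := ν + 1)
    omega
  exact (dst_M_le hN θ hθ hk h1).trans_lt hlt

/-- The chain of minimal vectors. -/
theorem exists_chain (hθ : Admissible θ) : ∃ (n0 : ℕ) (z : ℕ → ℤ × ℤ × ℤ),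
    (∀ ν, (z ν).1 = (M N θ (n0 + ν) : ℤ)) ∧
    (∀ ν, N (proj θ (z (ν + 1))) < N (proj θ (z ν))) ∧
    (∀ ν (w : ℤ × ℤ × ℤ), w ≠ 0 → |w.1| < (z (ν + 1)).1 → N (proj θ (z ν)) ≤ N (proj θ w)) := by
  obtain ⟨c, hc, hcle⟩ := hN.mul_norm_le
  obtain ⟨n0, hn0⟩ := dst_M_tendsto hN θ hθ hc
  choose a b hab using fun ν => dst_attained hN θ (M N θ (n0 + ν))
  refine ⟨n0, fun ν => ((M N θ (n0 + ν) : ℤ), a ν, b ν), fun ν => rfl, fun ν => ?_, fun ν w hw hlt => ?_⟩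
  · rw [hab, hab]; exact dst_M_succ_lt hN θ hθ (n0 + ν)
  · rw [hab]
    obtain ⟨q, s, t⟩ := w
    by_cases hq : q = 0
    · subst hq
      have hst : s ≠ 0 ∨ t ≠ 0 := by
        by_contra h; push Not at h; exact hw (by rw [h.1, h.2]; rfl)
      have h1 : 1 ≤ ‖proj θ (0, s, t)‖ := by
        rcases hst with h | h
        · have h2 := norm_le_pi_norm (proj θ (0, s, t)) 0
          rw [show proj θ (0, s, t) 0 = -(s : ℝ) by simp [proj], norm_neg, Real.norm_eq_abs] at h2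
          have h3 : (1 : ℝ) ≤ |(s : ℝ)| := by exact_mod_cast Int.one_le_abs h
          exact h3.trans h2
        · have h2 := norm_le_pi_norm (proj θ (0, s, t)) 1
          rw [show proj θ (0, s, t) 1 = -(t : ℝ) by simp [proj], norm_neg, Real.norm_eq_abs] at h2
          have h3 : (1 : ℝ) ≤ |(t : ℝ)| := by exact_mod_cast Int.one_le_abs h
          exact h3.trans h2
      have h2 := hcle (proj θ (0, s, t))
      have h3 := hn0 (n0 + ν) (by omega)
      nlinarith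
    · -- reduce to positive q
      have key : ∀ (q s t : ℤ), 0 < q → |q| < (M N θ (n0 + (ν + 1)) : ℤ) →
          dst N θ (M N θ (n0 + ν)) ≤ N (proj θ (q, s, t)) := by
        intro q s t hq hlt
        obtain ⟨m, rfl⟩ : ∃ m : ℕ, q = (m : ℤ) := ⟨q.toNat, (Int.toNat_of_nonneg hq.le).symm⟩
        have hm : 0 < m := by exact_mod_cast hq
        have hm2 : m < M N θ (n0 + ν + 1) := by
          rw [abs_of_pos hq] at hlt
          exact_mod_cast hlt
        exact (dst_M_le hN θ hθ hm hm2).trans (dst_le hN θ m s t)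
      rcases lt_or_gt_of_ne hq with h | h
      · have h1 := key (-q) (-s) (-t) (by omega) (by rw [abs_neg]; exact hlt)
        have h2 : ((-q, -s, -t) : ℤ × ℤ × ℤ) = -(q, s, t) := rfl
        rw [h2, proj_neg, hN.neg] at h1
        exact h1
      · exact key q s t h hlt

end Dist

end Pool.Agent.Helper224.BestApprox
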