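import Mathlib

set_option autoImplicit false

namespace Pool.Agent.Helper224.BestApprox

/-- The group of integer vectors `(q, a, b)`. -/
abbrev Lam : Type := ℤ × ℤ × ℤ

/-- Square of the Euclidean length of the projection. -/
def Q (u v : Lam →+ ℝ) (w : Lam) : ℝ := (u w) ^ 2 + (v w) ^ 2

/-- A chain of minimal vectors with respect to a height and a planar projection. -/
structure Chain (h u v : Lam →+ ℝ) (z : ℕ → Lam) : Prop where
  pos : ∀ n, 0 < h (z n)
  mono : ∀ n, h (z n) < h (z (n + 1))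
  dec : ∀ n, Q u v (z (n + 1)) < Q u v (z n)
  min : ∀ n w, w ≠ 0 → |h w| < h (z (n + 1)) → Q u v (z n) ≤ Q u v w

/-- The class modulo two. -/
def cl (w : Lam) : ZMod 2 × ZMod 2 × ZMod 2 := ((w.1 : ZMod 2), (w.2.1 : ZMod 2), (w.2.2 : ZMod 2))

lemma cl_add (x y : Lam) : cl (x + y) = cl x + cl y := by
  simp [cl]

lemma cl_half {x : Lam} (hx : cl x = 0) : ∃ w : Lam, x = w + w := by
  obtain ⟨a, b, c⟩ := x
  simp only [cl, Prod.mk_eq_zero] at hx
  obtain ⟨h1, h2, h3⟩ := hx
  rw [ZMod.intCast_zmod_eq_zero_iff_dvd] at h1 h2 h3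
  obtain ⟨a', ha⟩ := h1
  obtain ⟨b', hb⟩ := h2
  obtain ⟨c', hc⟩ := h3
  refine ⟨(a', b', c'), ?_⟩
  simp only [Prod.mk_add_mk, Prod.mk.injEq]
  push_cast at ha hb hc
  refine ⟨by linarith, by linarith, by linarith⟩

lemma two_eq_zero' (c : ZMod 2 × ZMod 2 × ZMod 2) : c + c = 0 := by
  revert c; decide

variable {h u v : Lam →+ ℝ} {z : ℕ → Lam}

lemma ne_zero_of_h {w : Lam} (hw : h w ≠ 0) : w ≠ 0 := by
  rintro rfl; exact hw (map_zero h)

namespace Chain

variable (C : Chain h u v z)
include C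

lemma strictMono : StrictMono (fun n => h (z n)) := strictMono_nat_of_lt_succ C.mono

lemma strictAnti : StrictAnti (fun n => Q u v (z n)) := strictAnti_nat_of_succ_lt C.dec

lemma Qnonneg (w : Lam) : 0 ≤ Q u v w := by unfold Q; positivity

/-- two congruent minimal vectors -/
lemma e2 {i j : ℕ} (hij : i < j) (hc : cl (z i) = cl (z j)) :
    h (z i) + 2 * h (z (i + 1)) ≤ h (z j) := by
  have hc' : cl (z j - z i) = 0 := by
    have : cl (z j - z i) = cl (z j) - cl (z i) := by simp [cl]
    rw [this, hc, sub_self]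
  obtain ⟨w, hw⟩ := cl_half hc'
  have hh : h w + h w = h (z j) - h (z i) := by rw [← map_add, ← hw, map_sub]
  have hu : u w + u w = u (z j) - u (z i) := by rw [← map_add, ← hw, map_sub]
  have hv : v w + v w = v (z j) - v (z i) := by rw [← map_add, ← hw, map_sub]
  have h1 : h (z i) < h (z j) := C.strictMono hij
  have h2 : Q u v (z j) < Q u v (z i) := C.strictAnti hij
  by_contra hcon
  push Not at hcon
  have h3 : Q u v (z i) ≤ Q u v w := by
    apply C.min i w (ne_zero_of_h (h := h) (by intro h0; rw [h0] at hh; linarith))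
    rw [abs_lt]; constructor <;> linarith [C.pos (i + 1)]
  unfold Q at h2 h3
  have hu' : u w = (u (z j) - u (z i)) / 2 := by linarith
  have hv' : v w = (v (z j) - v (z i)) / 2 := by linarith
  rw [hu', hv'] at h3
  nlinarith [sq_nonneg (u (z j) + u (z i)), sq_nonneg (v (z j) + v (z i))]

lemma cl_ne_zero (n : ℕ) : cl (z n) ≠ 0 := by
  intro hc
  obtain ⟨w, hw⟩ := cl_half hc
  have hh : h w + h w = h (z n) := by rw [← map_add, ← hw]
  have hu : u w + u w = u (z n) := by rw [← map_add, ← hw]
  have hv : v w + v w = v (z n) := by rw [← map_add, ← hw]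
  have h3 : Q u v (z n) ≤ Q u v w := by
    apply C.min n w (ne_zero_of_h (h := h) (by intro h0; rw [h0] at hh; linarith [C.pos n]))
    rw [abs_lt]; constructor <;> linarith [C.pos n, C.mono n]
  have h4 := C.dec n
  have h5 := C.Qnonneg (z (n + 1))
  unfold Q at h3 h4 h5
  rw [show u (z n) = u w + u w from hu.symm, show v (z n) = v w + v w from hv.symm] at h3 h4
  nlinarith

lemma cl_succ_ne (n : ℕ) : cl (z n) ≠ cl (z (n + 1)) := by
  intro hc
  have := C.e2 (Nat.lt_succ_self n) hc
  have h1 := C.pos n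
  have h2 := C.pos (n + 1)
  simp only [Nat.succ_eq_add_one] at this
  linarith

/-- three minimal vectors with even sum -/
lemma e1 {i j k : ℕ} (hij : i < j) (hjk : j < k) (hc : cl (z i) + cl (z j) + cl (z k) = 0) :
    h (z i) + h (z j) ≤ h (z k) := by
  have hc' : cl (z i + z j + z k) = 0 := by rw [cl_add, cl_add, hc]
  obtain ⟨w, hw⟩ := cl_half hc'
  have hh : h w + h w = h (z i) + h (z j) + h (z k) := by rw [← map_add, ← hw, map_add, map_add]
  have hu : u w + u w = u (z i) + u (z j) + u (z k) := by rw [← map_add, ← hw, map_add, map_add]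
  have hv : v w + v w = v (z i) + v (z j) + v (z k) := by rw [← map_add, ← hw, map_add, map_add]
  have h1 : h (z i) < h (z j) := C.strictMono hij
  have h2 : h (z j) < h (z k) := C.strictMono hjk
  have h3 : Q u v (z j) < Q u v (z i) := C.strictAnti hij
  have h4 : Q u v (z k) < Q u v (z j) := C.strictAnti hjk
  have h0 := C.pos i
  by_contra hcon
  push Not at hcon
  -- (x+y-z)/2, (x-y+z)/2, (-x+y+z)/2
  have e1 : h (w - z k) = (h (z i) + h (z j) - h (z k)) / 2 := by rw [map_sub]; linarith
  have e2 : h (w - z j) = (h (z i) - h (z j) + h (z k)) / 2 := by rw [map_sub]; linarith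
  have e3 : h (w - z i) = (- h (z i) + h (z j) + h (z k)) / 2 := by rw [map_sub]; linarith
  obtain ⟨j', rfl⟩ : ∃ j', j = j' + 1 := ⟨j - 1, by omega⟩
  obtain ⟨k', rfl⟩ : ∃ k', k = k' + 1 := ⟨k - 1, by omega⟩
  have m1 : Q u v (z i) ≤ Q u v (w - z (k' + 1)) := by
    apply C.min i _ (ne_zero_of_h (h := h) (by rw [e1]; linarith))
    rw [e1, abs_lt]; have := C.mono i; constructor <;> linarith
  have m2 : Q u v (z j') ≤ Q u v (w - z (j' + 1)) := by
    apply C.min j' _ (ne_zero_of_h (h := h) (by rw [e2]; linarith))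
    rw [e2, abs_lt]; constructor <;> linarith
  have m3 : Q u v (z k') ≤ Q u v (w - z i) := by
    apply C.min k' _ (ne_zero_of_h (h := h) (by rw [e3]; linarith))
    rw [e3, abs_lt]; constructor <;> linarith
  have d2 := C.dec j'
  have d3 := C.dec k'
  have u1 : u (w - z (k' + 1)) = (u (z i) + u (z (j' + 1)) - u (z (k' + 1))) / 2 := by
    rw [map_sub]; linarith
  have u2 : u (w - z (j' + 1)) = (u (z i) - u (z (j' + 1)) + u (z (k' + 1))) / 2 := by
    rw [map_sub]; linarith
  have u3 : u (w - z i) = (- u (z i) + u (z (j' + 1)) + u (z (k' + 1))) / 2 := by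
    rw [map_sub]; linarith
  have v1 : v (w - z (k' + 1)) = (v (z i) + v (z (j' + 1)) - v (z (k' + 1))) / 2 := by
    rw [map_sub]; linarith
  have v2 : v (w - z (j' + 1)) = (v (z i) - v (z (j' + 1)) + v (z (k' + 1))) / 2 := by
    rw [map_sub]; linarith
  have v3 : v (w - z i) = (- v (z i) + v (z (j' + 1)) + v (z (k' + 1))) / 2 := by
    rw [map_sub]; linarith
  unfold Q at m1 m2 m3 d2 d3
  rw [u1, v1] at m1
  rw [u2, v2] at m2
  rw [u3, v3] at m3
  nlinarith [sq_nonneg (u (z i) + u (z (j' + 1)) + u (z (k' + 1))),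
    sq_nonneg (v (z i) + v (z (j' + 1)) + v (z (k' + 1)))]


lemma cmp (n : ℕ) (w : Lam) {H U V : ℝ} (hh : h w = H) (hu : u w = U) (hv : v w = V)
    (h0 : w ≠ 0) (hb1 : H < h (z (n + 1))) (hb2 : -h (z (n + 1)) < H) :
    (u (z n)) ^ 2 + (v (z n)) ^ 2 ≤ U ^ 2 + V ^ 2 := by
  have := C.min n w h0 (by rw [hh, abs_lt]; exact ⟨hb2, hb1⟩)
  unfold Q at this
  rwa [hu, hv] at this

lemma cmp' (n : ℕ) (w : Lam) {H U V : ℝ} (hh : h w = H) (hu : u w = U) (hv : v w = V)
    (h0 : H ≠ 0) (hb1 : H < h (z (n + 1))) (hb2 : -h (z (n + 1)) < H) :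
    (u (z n)) ^ 2 + (v (z n)) ^ 2 ≤ U ^ 2 + V ^ 2 :=
  C.cmp n w hh hu hv (ne_zero_of_h (h := h) (by rw [hh]; exact h0)) hb1 hb2

/-- The case `b ≡ z1 + z2`. -/
lemma leafS (n : ℕ) (g w : Lam)
    (hg : z (n + 2) + z (n + 3) + z (n + 4) + z (n + 5) = g + g)
    (hw : z (n + 1) + z (n + 3) + z (n + 4) = w + w)
    (r1 : h (z (n + 5)) < h (z (n + 2)) + h (z (n + 3)))
    (r2 : h (z (n + 5)) < h (z (n + 2)) + 2 * h (z (n + 1)))
    (r3 : h (z (n + 3)) + h (z (n + 1)) ≤ h (z (n + 4))) : False := by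
  have gh := congrArg h hg
  have gu := congrArg u hg
  have gv := congrArg v hg
  have wh := congrArg h hw
  have wu := congrArg u hw
  have wv := congrArg v hw
  simp only [map_add] at gh gu gv wh wu wv
  have p1 := C.pos (n + 1)
  have o1 := C.mono (n + 1)
  have o2 := C.mono (n + 2)
  have o3 := C.mono (n + 3)
  have o4 := C.mono (n + 4)
  have d0 := C.dec n
  have d1 := C.dec (n + 1)
  have d2 := C.dec (n + 2)
  have d3 := C.dec (n + 3)
  have d4 := C.dec (n + 4)
  unfold Q at d0 d1 d2 d3 d4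
  have m1 := C.cmp' (n + 2) (g - z (n + 4) - z (n + 5))
    (H := (h (z (n + 2)) + h (z (n + 3)) - h (z (n + 4)) - h (z (n + 5))) / 2)
    (U := (u (z (n + 2)) + u (z (n + 3)) - u (z (n + 4)) - u (z (n + 5))) / 2)
    (V := (v (z (n + 2)) + v (z (n + 3)) - v (z (n + 4)) - v (z (n + 5))) / 2)
    (by simp only [map_sub]; linarith) (by simp only [map_sub]; linarith)
    (by simp only [map_sub]; linarith) (by apply ne_of_lt; linarith) (by linarith) (by linarith)
  have m2 := C.cmp' (n + 1) (w - z (n + 3) - z (n + 4) + z (n + 5))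
    (H := (h (z (n + 1)) - h (z (n + 3)) - h (z (n + 4)) + 2 * h (z (n + 5))) / 2)
    (U := (u (z (n + 1)) - u (z (n + 3)) - u (z (n + 4)) + 2 * u (z (n + 5))) / 2)
    (V := (v (z (n + 1)) - v (z (n + 3)) - v (z (n + 4)) + 2 * v (z (n + 5))) / 2)
    (by simp only [map_sub, map_add]; linarith) (by simp only [map_sub, map_add]; linarith)
    (by simp only [map_sub, map_add]; linarith) (by apply ne_of_gt; linarith) (by linarith)
    (by linarith)
  have m3 := C.cmp' (n + 4) (w + g - z (n + 3) - z (n + 4))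
    (H := (h (z (n + 1)) + h (z (n + 2)) + h (z (n + 5))) / 2)
    (U := (u (z (n + 1)) + u (z (n + 2)) + u (z (n + 5))) / 2)
    (V := (v (z (n + 1)) + v (z (n + 2)) + v (z (n + 5))) / 2)
    (by simp only [map_sub, map_add]; linarith) (by simp only [map_sub, map_add]; linarith)
    (by simp only [map_sub, map_add]; linarith) (by apply ne_of_gt; linarith) (by linarith)
    (by linarith)
  have m4 := C.cmp' n (w + g - z (n + 3) - z (n + 4) - z (n + 5))
    (H := (h (z (n + 1)) + h (z (n + 2)) - h (z (n + 5))) / 2)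
    (U := (u (z (n + 1)) + u (z (n + 2)) - u (z (n + 5))) / 2)
    (V := (v (z (n + 1)) + v (z (n + 2)) - v (z (n + 5))) / 2)
    (by simp only [map_sub, map_add]; linarith) (by simp only [map_sub, map_add]; linarith)
    (by simp only [map_sub, map_add]; linarith) (by apply ne_of_lt; linarith) (by linarith)
    (by linarith)
  have m5 := C.cmp' (n + 3) (w + g - z (n + 3) - z (n + 4) - z (n + 5) - z (n + 2))
    (H := (h (z (n + 1)) - h (z (n + 2)) - h (z (n + 5))) / 2)
    (U := (u (z (n + 1)) - u (z (n + 2)) - u (z (n + 5))) / 2)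
    (V := (v (z (n + 1)) - v (z (n + 2)) - v (z (n + 5))) / 2)
    (by simp only [map_sub, map_add]; linarith) (by simp only [map_sub, map_add]; linarith)
    (by simp only [map_sub, map_add]; linarith) (by apply ne_of_lt; linarith) (by linarith)
    (by linarith)
  have m6 := C.cmp' (n + 2) (w + g - z (n + 3) - z (n + 4) - z (n + 2))
    (H := (h (z (n + 1)) - h (z (n + 2)) + h (z (n + 5))) / 2)
    (U := (u (z (n + 1)) - u (z (n + 2)) + u (z (n + 5))) / 2)
    (V := (v (z (n + 1)) - v (z (n + 2)) + v (z (n + 5))) / 2)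
    (by simp only [map_sub, map_add]; linarith) (by simp only [map_sub, map_add]; linarith)
    (by simp only [map_sub, map_add]; linarith) (by apply ne_of_gt; linarith) (by linarith)
    (by linarith)
  have m7 := C.cmp' n (z (n + 2) - z (n + 3) + z (n + 4) - z (n + 5))
    (H := h (z (n + 2)) - h (z (n + 3)) + h (z (n + 4)) - h (z (n + 5)))
    (U := u (z (n + 2)) - u (z (n + 3)) + u (z (n + 4)) - u (z (n + 5)))
    (V := v (z (n + 2)) - v (z (n + 3)) + v (z (n + 4)) - v (z (n + 5)))
    (by simp only [map_sub, map_add]) (by simp only [map_sub, map_add])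
    (by simp only [map_sub, map_add]) (by apply ne_of_lt; linarith) (by linarith)
    (by linarith)
  have m8 := C.cmp' n (w + z (n + 2) - z (n + 3) - z (n + 4))
    (H := (h (z (n + 1)) + 2 * h (z (n + 2)) - h (z (n + 3)) - h (z (n + 4))) / 2)
    (U := (u (z (n + 1)) + 2 * u (z (n + 2)) - u (z (n + 3)) - u (z (n + 4))) / 2)
    (V := (v (z (n + 1)) + 2 * v (z (n + 2)) - v (z (n + 3)) - v (z (n + 4))) / 2)
    (by simp only [map_sub, map_add]; linarith) (by simp only [map_sub, map_add]; linarith)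
    (by simp only [map_sub, map_add]; linarith) (by apply ne_of_lt; linarith) (by linarith)
    (by linarith)
  linarith [sq_nonneg (u (z (n + 1)) + u (z (n + 2)) + u (z (n + 3)) + u (z (n + 4)) + u (z (n + 5))),
    sq_nonneg (v (z (n + 1)) + v (z (n + 2)) + v (z (n + 3)) + v (z (n + 4)) + v (z (n + 5)))]

/-- The case `b ≡ z1 + z3` with `z3 ≠ z1 + b`. -/
lemma leafQ1 (n : ℕ) (w : Lam)
    (hw : z (n + 1) + z (n + 3) + z (n + 5) = w + w)
    (hne : w ≠ z (n + 5))
    (r1 : h (z (n + 5)) < h (z (n + 2)) + h (z (n + 3)))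
    (r2 : h (z (n + 5)) < h (z (n + 2)) + 2 * h (z (n + 1)))
    (r3 : h (z (n + 2)) + h (z (n + 1)) ≤ h (z (n + 4)))
    (r4 : h (z (n + 3)) + h (z (n + 1)) ≤ h (z (n + 5))) : False := by
  have wh := congrArg h hw
  have wu := congrArg u hw
  have wv := congrArg v hw
  simp only [map_add] at wh wu wv
  have p1 := C.pos (n + 1)
  have o1 := C.mono (n + 1)
  have o2 := C.mono (n + 2)
  have o3 := C.mono (n + 3)
  have o4 := C.mono (n + 4)
  have o5 := C.mono (n + 5)
  have d0 := C.dec n
  have d1 := C.dec (n + 1)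
  have d2 := C.dec (n + 2)
  have d3 := C.dec (n + 3)
  have d4 := C.dec (n + 4)
  unfold Q at d0 d1 d2 d3 d4
  have m1 := C.cmp' (n + 3) (w - z (n + 3) - z (n + 5))
    (H := (h (z (n + 1)) - h (z (n + 3)) - h (z (n + 5))) / 2)
    (U := (u (z (n + 1)) - u (z (n + 3)) - u (z (n + 5))) / 2)
    (V := (v (z (n + 1)) - v (z (n + 3)) - v (z (n + 5))) / 2)
    (by simp only [map_sub]; linarith) (by simp only [map_sub]; linarith)
    (by simp only [map_sub]; linarith) (by apply ne_of_lt; linarith) (by linarith) (by linarith)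
  have m2 := C.cmp' n (z (n + 4) - z (n + 5))
    (H := h (z (n + 4)) - h (z (n + 5)))
    (U := u (z (n + 4)) - u (z (n + 5)))
    (V := v (z (n + 4)) - v (z (n + 5)))
    (by simp only [map_sub]) (by simp only [map_sub])
    (by simp only [map_sub]) (by apply ne_of_lt; linarith) (by linarith) (by linarith)
  have m3 := C.cmp' (n + 1) (w - z (n + 3))
    (H := (h (z (n + 1)) - h (z (n + 3)) + h (z (n + 5))) / 2)
    (U := (u (z (n + 1)) - u (z (n + 3)) + u (z (n + 5))) / 2)
    (V := (v (z (n + 1)) - v (z (n + 3)) + v (z (n + 5))) / 2)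
    (by simp only [map_sub]; linarith) (by simp only [map_sub]; linarith)
    (by simp only [map_sub]; linarith) (by apply ne_of_gt; linarith) (by linarith) (by linarith)
  have m4 := C.cmp' n (z (n + 1) + z (n + 4) - z (n + 5))
    (H := h (z (n + 1)) + h (z (n + 4)) - h (z (n + 5)))
    (U := u (z (n + 1)) + u (z (n + 4)) - u (z (n + 5)))
    (V := v (z (n + 1)) + v (z (n + 4)) - v (z (n + 5)))
    (by simp only [map_sub, map_add]) (by simp only [map_sub, map_add])
    (by simp only [map_sub, map_add]) (by apply ne_of_gt; linarith) (by linarith) (by linarith)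
  have m5 := C.cmp' (n + 5) w
    (H := (h (z (n + 1)) + h (z (n + 3)) + h (z (n + 5))) / 2)
    (U := (u (z (n + 1)) + u (z (n + 3)) + u (z (n + 5))) / 2)
    (V := (v (z (n + 1)) + v (z (n + 3)) + v (z (n + 5))) / 2)
    (by linarith) (by linarith)
    (by linarith) (by apply ne_of_gt; linarith) (by linarith) (by linarith)
  have m6 := C.cmp n (w - z (n + 5))
    (H := (h (z (n + 1)) + h (z (n + 3)) - h (z (n + 5))) / 2)
    (U := (u (z (n + 1)) + u (z (n + 3)) - u (z (n + 5))) / 2)
    (V := (v (z (n + 1)) + v (z (n + 3)) - v (z (n + 5))) / 2)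
    (by simp only [map_sub]; linarith) (by simp only [map_sub]; linarith)
    (by simp only [map_sub]; linarith) (sub_ne_zero.mpr hne) (by linarith) (by linarith)
  linarith [sq_nonneg (u (z (n + 3)) - u (z (n + 4)) - u (z (n + 5))),
    sq_nonneg (v (z (n + 3)) - v (z (n + 4)) - v (z (n + 5))),
    sq_nonneg (u (z (n + 1)) - u (z (n + 3)) - u (z (n + 4)) - u (z (n + 5))),
    sq_nonneg (v (z (n + 1)) - v (z (n + 3)) - v (z (n + 4)) - v (z (n + 5)))]

/-- The case `b ≡ z0 + z2` with `z3 = z1 + b`, `z2 ≠ z0 + b`. -/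
lemma leafQ2 (n : ℕ) (w : Lam)
    (hw : z (n + 1) + z (n + 2) + z (n + 4) = w + w)
    (hne : w ≠ z (n + 4)) (h3 : z (n + 5) = z (n + 3) + z (n + 1))
    (r1 : h (z (n + 5)) < h (z (n + 2)) + h (z (n + 3)))
    (r2 : h (z (n + 5)) < h (z (n + 2)) + 2 * h (z (n + 1)))
    (r3 : h (z (n + 2)) + h (z (n + 1)) ≤ h (z (n + 4))) : False := by
  have wh := congrArg h hw
  have wu := congrArg u hw
  have wv := congrArg v hw
  have th := congrArg h h3
  have tu := congrArg u h3
  have tv := congrArg v h3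
  simp only [map_add] at wh wu wv th tu tv
  have p1 := C.pos (n + 1)
  have o1 := C.mono (n + 1)
  have o2 := C.mono (n + 2)
  have o3 := C.mono (n + 3)
  have o4 := C.mono (n + 4)
  have d0 := C.dec n
  have d1 := C.dec (n + 1)
  have d2 := C.dec (n + 2)
  have d3 := C.dec (n + 3)
  have d4 := C.dec (n + 4)
  unfold Q at d0 d1 d2 d3 d4
  rw [tu, tv] at d4
  have m1 := C.cmp' (n + 2) (w - z (n + 2))
    (H := (h (z (n + 1)) - h (z (n + 2)) + h (z (n + 4))) / 2)
    (U := (u (z (n + 1)) - u (z (n + 2)) + u (z (n + 4))) / 2)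
    (V := (v (z (n + 1)) - v (z (n + 2)) + v (z (n + 4))) / 2)
    (by simp only [map_sub]; linarith) (by simp only [map_sub]; linarith)
    (by simp only [map_sub]; linarith) (by apply ne_of_gt; linarith) (by linarith) (by linarith)
  have m2 := C.cmp' (n + 2) (w - z (n + 2) - z (n + 4))
    (H := (h (z (n + 1)) - h (z (n + 2)) - h (z (n + 4))) / 2)
    (U := (u (z (n + 1)) - u (z (n + 2)) - u (z (n + 4))) / 2)
    (V := (v (z (n + 1)) - v (z (n + 2)) - v (z (n + 4))) / 2)
    (by simp only [map_sub]; linarith) (by simp only [map_sub]; linarith)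
    (by simp only [map_sub]; linarith) (by apply ne_of_lt; linarith) (by linarith) (by linarith)
  have m3 := C.cmp n (w - z (n + 4))
    (H := (h (z (n + 1)) + h (z (n + 2)) - h (z (n + 4))) / 2)
    (U := (u (z (n + 1)) + u (z (n + 2)) - u (z (n + 4))) / 2)
    (V := (v (z (n + 1)) + v (z (n + 2)) - v (z (n + 4))) / 2)
    (by simp only [map_sub]; linarith) (by simp only [map_sub]; linarith)
    (by simp only [map_sub]; linarith) (sub_ne_zero.mpr hne) (by linarith) (by linarith)
  have m4 := C.cmp' (n + 4) w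
    (H := (h (z (n + 1)) + h (z (n + 2)) + h (z (n + 4))) / 2)
    (U := (u (z (n + 1)) + u (z (n + 2)) + u (z (n + 4))) / 2)
    (V := (v (z (n + 1)) + v (z (n + 2)) + v (z (n + 4))) / 2)
    (by linarith) (by linarith)
    (by linarith) (by apply ne_of_gt; linarith) (by linarith) (by linarith)
  have m5 := C.cmp' n (w - z (n + 2) + z (n + 3) - z (n + 4))
    (H := (h (z (n + 1)) - h (z (n + 2)) + 2 * h (z (n + 3)) - h (z (n + 4))) / 2)
    (U := (u (z (n + 1)) - u (z (n + 2)) + 2 * u (z (n + 3)) - u (z (n + 4))) / 2)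
    (V := (v (z (n + 1)) - v (z (n + 2)) + 2 * v (z (n + 3)) - v (z (n + 4))) / 2)
    (by simp only [map_sub, map_add]; linarith) (by simp only [map_sub, map_add]; linarith)
    (by simp only [map_sub, map_add]; linarith) (by apply ne_of_gt; linarith) (by linarith)
    (by linarith)
  linarith [sq_nonneg (u (z (n + 1)) + u (z (n + 2)) + u (z (n + 3)) + u (z (n + 4))),
    sq_nonneg (v (z (n + 1)) + v (z (n + 2)) + v (z (n + 3)) + v (z (n + 4)))]

/-- `z2 = z0 + b`, `z3 = z1 + b`, `a ≡ z0`. -/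
lemma leafX0 (n : ℕ) (w : Lam)
    (hw : z n + z (n + 2) = w + w)
    (h2 : z (n + 4) = z (n + 2) + z (n + 1)) (h3 : z (n + 5) = z (n + 3) + z (n + 1))
    (r1 : h (z (n + 3)) < h (z (n + 2)) + h (z n)) : False := by
  have th := congrArg h h2
  have tu := congrArg u h2
  have tv := congrArg v h2
  have sh := congrArg h h3
  have su := congrArg u h3
  have sv := congrArg v h3
  have wh := congrArg h hw
  have wu := congrArg u hw
  have wv := congrArg v hw
  simp only [map_add] at wh wu wv th tu tv sh su sv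
  have p0 := C.pos n
  have o0 := C.mono n
  have o1 := C.mono (n + 1)
  have o2 := C.mono (n + 2)
  have o3 := C.mono (n + 3)
  have o4 := C.mono (n + 4)
  have d0 := C.dec n
  have d1 := C.dec (n + 1)
  have d2 := C.dec (n + 2)
  have d3 := C.dec (n + 3)
  have d4 := C.dec (n + 4)
  unfold Q at d0 d1 d2 d3 d4
  rw [tu, tv] at d3 d4
  rw [su, sv] at d4
  have m0 := C.cmp' n (z (n + 2) - z (n + 3))
    (H := h (z (n + 2)) - h (z (n + 3)))
    (U := u (z (n + 2)) - u (z (n + 3)))
    (V := v (z (n + 2)) - v (z (n + 3)))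
    (by simp only [map_sub]) (by simp only [map_sub])
    (by simp only [map_sub]) (by apply ne_of_lt; linarith) (by linarith) (by linarith)
  have m1 := C.cmp' (n + 1) (w)
    (H := (h (z n) + h (z (n + 2))) / 2)
    (U := (u (z n) + u (z (n + 2))) / 2)
    (V := (v (z n) + v (z (n + 2))) / 2)
    (by linarith) (by linarith)
    (by linarith) (by apply ne_of_gt; linarith) (by linarith)
    (by linarith)
  have m2 := C.cmp' (n + 1) (w - z (n + 2))
    (H := (h (z n) - h (z (n + 2))) / 2)
    (U := (u (z n) - u (z (n + 2))) / 2)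
    (V := (v (z n) - v (z (n + 2))) / 2)
    (by simp only [map_sub, map_add]; linarith) (by simp only [map_sub, map_add]; linarith)
    (by simp only [map_sub, map_add]; linarith) (by apply ne_of_lt; linarith) (by linarith)
    (by linarith)
  linarith [
    sq_nonneg (u (z (n + 1)) + u (z (n + 2)) + u (z (n + 3))),
    sq_nonneg (v (z (n + 1)) + v (z (n + 2)) + v (z (n + 3)))]

/-- `z2 = z0 + b`, `z3 = z1 + b`, `a ≡ z1`. -/
lemma leafX1 (n : ℕ) (w : Lam)
    (hw : z n + z (n + 3) = w + w)
    (h2 : z (n + 4) = z (n + 2) + z (n + 1)) (h3 : z (n + 5) = z (n + 3) + z (n + 1))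
    (r1 : h (z (n + 3)) < h (z (n + 2)) + h (z n))
    (r2 : h (z n) + 2 * h (z (n + 1)) ≤ h (z (n + 3))) : False := by
  have th := congrArg h h2
  have tu := congrArg u h2
  have tv := congrArg v h2
  have sh := congrArg h h3
  have su := congrArg u h3
  have sv := congrArg v h3
  have wh := congrArg h hw
  have wu := congrArg u hw
  have wv := congrArg v hw
  simp only [map_add] at wh wu wv th tu tv sh su sv
  have p0 := C.pos n
  have o0 := C.mono n
  have o1 := C.mono (n + 1)
  have o2 := C.mono (n + 2)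
  have o3 := C.mono (n + 3)
  have o4 := C.mono (n + 4)
  have d0 := C.dec n
  have d1 := C.dec (n + 1)
  have d2 := C.dec (n + 2)
  have d3 := C.dec (n + 3)
  have d4 := C.dec (n + 4)
  unfold Q at d0 d1 d2 d3 d4
  rw [tu, tv] at d3 d4
  rw [su, sv] at d4
  have m0 := C.cmp' n (z (n + 2) - z (n + 3))
    (H := h (z (n + 2)) - h (z (n + 3)))
    (U := u (z (n + 2)) - u (z (n + 3)))
    (V := v (z (n + 2)) - v (z (n + 3)))
    (by simp only [map_sub]) (by simp only [map_sub])
    (by simp only [map_sub]) (by apply ne_of_lt; linarith) (by linarith) (by linarith)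
  have m1 := C.cmp' (n + 1) (w)
    (H := (h (z n) + h (z (n + 3))) / 2)
    (U := (u (z n) + u (z (n + 3))) / 2)
    (V := (v (z n) + v (z (n + 3))) / 2)
    (by linarith) (by linarith)
    (by linarith) (by apply ne_of_gt; linarith) (by linarith)
    (by linarith)
  have m2 := C.cmp' (n + 1) (w - z (n + 3))
    (H := (h (z n) - h (z (n + 3))) / 2)
    (U := (u (z n) - u (z (n + 3))) / 2)
    (V := (v (z n) - v (z (n + 3))) / 2)
    (by simp only [map_sub, map_add]; linarith) (by simp only [map_sub, map_add]; linarith)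
    (by simp only [map_sub, map_add]; linarith) (by apply ne_of_lt; linarith) (by linarith)
    (by linarith)
  linarith [
    sq_nonneg (u (z (n + 1)) + u (z (n + 2)) + u (z (n + 3))),
    sq_nonneg (v (z (n + 1)) + v (z (n + 2)) + v (z (n + 3)))]

/-- `z2 = z0 + b`, `z3 = z1 + b`, `a ≡ z2`. -/
lemma leafX2 (n : ℕ) (w : Lam)
    (hw : z n + z (n + 1) + z (n + 2) = w + w)
    (h2 : z (n + 4) = z (n + 2) + z (n + 1)) (h3 : z (n + 5) = z (n + 3) + z (n + 1))
    (r1 : h (z (n + 3)) < h (z (n + 2)) + h (z n))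
    (r2 : h (z n) + h (z (n + 1)) ≤ h (z (n + 2))) : False := by
  have th := congrArg h h2
  have tu := congrArg u h2
  have tv := congrArg v h2
  have sh := congrArg h h3
  have su := congrArg u h3
  have sv := congrArg v h3
  have wh := congrArg h hw
  have wu := congrArg u hw
  have wv := congrArg v hw
  simp only [map_add] at wh wu wv th tu tv sh su sv
  have p0 := C.pos n
  have o0 := C.mono n
  have o1 := C.mono (n + 1)
  have o2 := C.mono (n + 2)
  have o3 := C.mono (n + 3)
  have o4 := C.mono (n + 4)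
  have d0 := C.dec n
  have d1 := C.dec (n + 1)
  have d2 := C.dec (n + 2)
  have d3 := C.dec (n + 3)
  have d4 := C.dec (n + 4)
  unfold Q at d0 d1 d2 d3 d4
  rw [tu, tv] at d3 d4
  rw [su, sv] at d4
  have m0 := C.cmp' n (z (n + 2) - z (n + 3))
    (H := h (z (n + 2)) - h (z (n + 3)))
    (U := u (z (n + 2)) - u (z (n + 3)))
    (V := v (z (n + 2)) - v (z (n + 3)))
    (by simp only [map_sub]) (by simp only [map_sub])
    (by simp only [map_sub]) (by apply ne_of_lt; linarith) (by linarith) (by linarith)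
  have m1 := C.cmp' (n + 2) (w)
    (H := (h (z n) + h (z (n + 1)) + h (z (n + 2))) / 2)
    (U := (u (z n) + u (z (n + 1)) + u (z (n + 2))) / 2)
    (V := (v (z n) + v (z (n + 1)) + v (z (n + 2))) / 2)
    (by linarith) (by linarith)
    (by linarith) (by apply ne_of_gt; linarith) (by linarith)
    (by linarith)
  have m2 := C.cmp' (n + 1) (w - z (n + 1) - z (n + 2))
    (H := (h (z n) - h (z (n + 1)) - h (z (n + 2))) / 2)
    (U := (u (z n) - u (z (n + 1)) - u (z (n + 2))) / 2)
    (V := (v (z n) - v (z (n + 1)) - v (z (n + 2))) / 2)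
    (by simp only [map_sub, map_add]; linarith) (by simp only [map_sub, map_add]; linarith)
    (by simp only [map_sub, map_add]; linarith) (by apply ne_of_lt; linarith) (by linarith)
    (by linarith)
  linarith [
    sq_nonneg (u (z (n + 1)) + u (z (n + 2)) + u (z (n + 3))),
    sq_nonneg (v (z (n + 1)) + v (z (n + 2)) + v (z (n + 3)))]

/-- `z2 = z0 + b`, `z3 = z1 + b`, `a ≡ z3`. -/
lemma leafX3 (n : ℕ) (w : Lam)
    (hw : z n + z (n + 1) + z (n + 3) = w + w)
    (h2 : z (n + 4) = z (n + 2) + z (n + 1)) (h3 : z (n + 5) = z (n + 3) + z (n + 1))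
    (r1 : h (z (n + 3)) < h (z (n + 2)) + h (z n))
    (r2 : h (z n) + h (z (n + 1)) ≤ h (z (n + 3))) : False := by
  have th := congrArg h h2
  have tu := congrArg u h2
  have tv := congrArg v h2
  have sh := congrArg h h3
  have su := congrArg u h3
  have sv := congrArg v h3
  have wh := congrArg h hw
  have wu := congrArg u hw
  have wv := congrArg v hw
  simp only [map_add] at wh wu wv th tu tv sh su sv
  have p0 := C.pos n
  have o0 := C.mono n
  have o1 := C.mono (n + 1)
  have o2 := C.mono (n + 2)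
  have o3 := C.mono (n + 3)
  have o4 := C.mono (n + 4)
  have d0 := C.dec n
  have d1 := C.dec (n + 1)
  have d2 := C.dec (n + 2)
  have d3 := C.dec (n + 3)
  have d4 := C.dec (n + 4)
  unfold Q at d0 d1 d2 d3 d4
  rw [tu, tv] at d3 d4
  rw [su, sv] at d4
  have m0 := C.cmp' n (z (n + 2) - z (n + 3))
    (H := h (z (n + 2)) - h (z (n + 3)))
    (U := u (z (n + 2)) - u (z (n + 3)))
    (V := v (z (n + 2)) - v (z (n + 3)))
    (by simp only [map_sub]) (by simp only [map_sub])
    (by simp only [map_sub]) (by apply ne_of_lt; linarith) (by linarith) (by linarith)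
  have m1 := C.cmp' (n + 3) (w)
    (H := (h (z n) + h (z (n + 1)) + h (z (n + 3))) / 2)
    (U := (u (z n) + u (z (n + 1)) + u (z (n + 3))) / 2)
    (V := (v (z n) + v (z (n + 1)) + v (z (n + 3))) / 2)
    (by linarith) (by linarith)
    (by linarith) (by apply ne_of_gt; linarith) (by linarith)
    (by linarith)
  have m2 := C.cmp' (n + 1) (w - z (n + 1) - z (n + 3))
    (H := (h (z n) - h (z (n + 1)) - h (z (n + 3))) / 2)
    (U := (u (z n) - u (z (n + 1)) - u (z (n + 3))) / 2)
    (V := (v (z n) - v (z (n + 1)) - v (z (n + 3))) / 2)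
    (by simp only [map_sub, map_add]; linarith) (by simp only [map_sub, map_add]; linarith)
    (by simp only [map_sub, map_add]; linarith) (by apply ne_of_lt; linarith) (by linarith)
    (by linarith)
  linarith [
    sq_nonneg (u (z (n + 1)) + u (z (n + 2)) + u (z (n + 3))),
    sq_nonneg (v (z (n + 1)) + v (z (n + 2)) + v (z (n + 3)))]

/-- `z2 = z0 + b`, `z3 = z1 + b`, `a ≡ z1 + z2`. -/
lemma leafX4 (n : ℕ) (w : Lam)
    (hw : z n + z (n + 1) + z (n + 2) + z (n + 3) = w + w)
    (h2 : z (n + 4) = z (n + 2) + z (n + 1)) (h3 : z (n + 5) = z (n + 3) + z (n + 1))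
    (r1 : h (z (n + 3)) < h (z (n + 2)) + h (z n)) : False := by
  have th := congrArg h h2
  have tu := congrArg u h2
  have tv := congrArg v h2
  have sh := congrArg h h3
  have su := congrArg u h3
  have sv := congrArg v h3
  have wh := congrArg h hw
  have wu := congrArg u hw
  have wv := congrArg v hw
  simp only [map_add] at wh wu wv th tu tv sh su sv
  have p0 := C.pos n
  have o0 := C.mono n
  have o1 := C.mono (n + 1)
  have o2 := C.mono (n + 2)
  have o3 := C.mono (n + 3)
  have o4 := C.mono (n + 4)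
  have d0 := C.dec n
  have d1 := C.dec (n + 1)
  have d2 := C.dec (n + 2)
  have d3 := C.dec (n + 3)
  have d4 := C.dec (n + 4)
  unfold Q at d0 d1 d2 d3 d4
  rw [tu, tv] at d3 d4
  rw [su, sv] at d4
  have m0 := C.cmp' n (z (n + 2) - z (n + 3))
    (H := h (z (n + 2)) - h (z (n + 3)))
    (U := u (z (n + 2)) - u (z (n + 3)))
    (V := v (z (n + 2)) - v (z (n + 3)))
    (by simp only [map_sub]) (by simp only [map_sub])
    (by simp only [map_sub]) (by apply ne_of_lt; linarith) (by linarith) (by linarith)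
  have m1 := C.cmp' (n + 4) (w)
    (H := (h (z n) + h (z (n + 1)) + h (z (n + 2)) + h (z (n + 3))) / 2)
    (U := (u (z n) + u (z (n + 1)) + u (z (n + 2)) + u (z (n + 3))) / 2)
    (V := (v (z n) + v (z (n + 1)) + v (z (n + 2)) + v (z (n + 3))) / 2)
    (by linarith) (by linarith)
    (by linarith) (by apply ne_of_gt; linarith) (by linarith)
    (by linarith)
  have m2 := C.cmp' (n + 3) (w - z (n + 1) - z (n + 2) - z (n + 3))
    (H := (h (z n) - h (z (n + 1)) - h (z (n + 2)) - h (z (n + 3))) / 2)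
    (U := (u (z n) - u (z (n + 1)) - u (z (n + 2)) - u (z (n + 3))) / 2)
    (V := (v (z n) - v (z (n + 1)) - v (z (n + 2)) - v (z (n + 3))) / 2)
    (by simp only [map_sub, map_add]; linarith) (by simp only [map_sub, map_add]; linarith)
    (by simp only [map_sub, map_add]; linarith) (by apply ne_of_lt; linarith) (by linarith)
    (by linarith)
  rw [tu, tv] at m1
  linarith [sq_nonneg (u (z n) + u (z (n + 1)) + u (z (n + 2)) + u (z (n + 3))),
    sq_nonneg (v (z n) + v (z (n + 1)) + v (z (n + 2)) + v (z (n + 3))),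
    sq_nonneg (u (z (n + 1)) + u (z (n + 2)) + u (z (n + 3))),
    sq_nonneg (v (z (n + 1)) + v (z (n + 2)) + v (z (n + 3)))]


end Chain

set_option synthInstance.maxSize 2000 in
lemma comb2 : ∀ c0 c1 c2 b : ZMod 2 × ZMod 2 × ZMod 2, (c0 ≠ 0 ∧ c1 ≠ 0 ∧ c2 ≠ 0 ∧
    c0 ≠ c1 ∧ c0 ≠ c2 ∧ c1 ≠ c2 ∧ c0 + c1 + c2 ≠ 0 ∧ b ≠ 0) →
    (b = c0 ∨ b = c1 ∨ b = c2 ∨ b = c0 + c1 + c2 ∨ b = c0 + c1 ∨ b = c0 + c2 ∨ b = c1 + c2) := by
  decide

lemma comb3 : ∀ c0 c1 : ZMod 2 × ZMod 2 × ZMod 2, c0 + c1 + (c0 + c1) = 0 := by decide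

lemma comb1 (c0 c1 c2 c3 : ZMod 2 × ZMod 2 × ZMod 2) (h0 : c0 ≠ 0) (h1 : c1 ≠ 0) (h2 : c2 ≠ 0)
    (h3 : c3 ≠ 0) (h01 : c0 ≠ c1) (h02 : c0 ≠ c2) (h03 : c0 ≠ c3) (h12 : c1 ≠ c2) (h13 : c1 ≠ c3)
    (h23 : c2 ≠ c3) (l012 : c0 + c1 + c2 ≠ 0) (l013 : c0 + c1 + c3 ≠ 0) (l023 : c0 + c2 + c3 ≠ 0)
    (l123 : c1 + c2 + c3 ≠ 0) : c3 = c0 + c1 + c2 := by
  rcases comb2 c0 c1 c2 c3 ⟨h0, h1, h2, h01, h02, h12, l012, h3⟩ with e | e | e | e | e | e | e
  · exact absurd e.symm h03
  · exact absurd e.symm h13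
  · exact absurd e.symm h23
  · exact e
  · exact absurd (by rw [e]; exact comb3 _ _) l013
  · exact absurd (by rw [e]; exact comb3 _ _) l023
  · exact absurd (by rw [e]; exact comb3 _ _) l123

namespace Chain

variable (C : Chain h u v z)
include C

/-- The key alternative for six consecutive minimal vectors. -/
theorem key (n : ℕ) :
    h (z (n + 3)) + h (z (n + 2)) ≤ h (z (n + 5)) ∨
      h (z (n + 2)) + h (z (n + 1)) + h (z n) ≤ h (z (n + 5)) := by
  by_contra hcon
  push Not at hcon
  obtain ⟨r1, r2⟩ := hcon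
  have p0 := C.pos n
  have p1 := C.pos (n + 1)
  have o0 := C.mono n
  have o1 := C.mono (n + 1)
  have o2 := C.mono (n + 2)
  have o3 := C.mono (n + 3)
  have o4 := C.mono (n + 4)
  simp only [add_assoc, Nat.reduceAdd] at o1 o2 o3 o4
  have n0 := C.cl_ne_zero (n + 2)
  have n1 := C.cl_ne_zero (n + 3)
  have n2 := C.cl_ne_zero (n + 4)
  have n3 := C.cl_ne_zero (n + 5)
  have nb := C.cl_ne_zero (n + 1)
  have na := C.cl_ne_zero n
  have c01 : cl (z (n + 2)) ≠ cl (z (n + 3)) := C.cl_succ_ne (n + 2)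
  have c12 : cl (z (n + 3)) ≠ cl (z (n + 4)) := C.cl_succ_ne (n + 3)
  have c23 : cl (z (n + 4)) ≠ cl (z (n + 5)) := C.cl_succ_ne (n + 4)
  have cb0 : cl (z (n + 1)) ≠ cl (z (n + 2)) := C.cl_succ_ne (n + 1)
  have cab : cl (z n) ≠ cl (z (n + 1)) := C.cl_succ_ne n
  have c02 : cl (z (n + 2)) ≠ cl (z (n + 4)) := by
    intro hc
    have := C.e2 (show n + 2 < n + 4 by omega) hc
    simp only [add_assoc, Nat.reduceAdd] at this
    linarith
  have c03 : cl (z (n + 2)) ≠ cl (z (n + 5)) := by
    intro hc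
    have := C.e2 (show n + 2 < n + 5 by omega) hc
    simp only [add_assoc, Nat.reduceAdd] at this
    linarith
  have c13 : cl (z (n + 3)) ≠ cl (z (n + 5)) := by
    intro hc
    have := C.e2 (show n + 3 < n + 5 by omega) hc
    simp only [add_assoc, Nat.reduceAdd] at this
    linarith
  have l012 : cl (z (n + 2)) + cl (z (n + 3)) + cl (z (n + 4)) ≠ 0 := by
    intro hc
    have := C.e1 (show n + 2 < n + 3 by omega) (show n + 3 < n + 4 by omega) hc
    linarith
  have l013 : cl (z (n + 2)) + cl (z (n + 3)) + cl (z (n + 5)) ≠ 0 := by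
    intro hc
    have := C.e1 (show n + 2 < n + 3 by omega) (show n + 3 < n + 5 by omega) hc
    linarith
  have l023 : cl (z (n + 2)) + cl (z (n + 4)) + cl (z (n + 5)) ≠ 0 := by
    intro hc
    have := C.e1 (show n + 2 < n + 4 by omega) (show n + 4 < n + 5 by omega) hc
    linarith
  have l123 : cl (z (n + 3)) + cl (z (n + 4)) + cl (z (n + 5)) ≠ 0 := by
    intro hc
    have := C.e1 (show n + 3 < n + 4 by omega) (show n + 4 < n + 5 by omega) hc
    linarith
  have h3 := comb1 _ _ _ _ n0 n1 n2 n3 c01 c02 c03 c12 c13 c23 l012 l013 l023 l123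
  have hsum : cl (z (n + 2)) + cl (z (n + 3)) + cl (z (n + 4)) + cl (z (n + 5)) = 0 := by
    rw [h3]; exact two_eq_zero' _
  have x2 := two_eq_zero'
  rcases comb2 _ _ _ _ ⟨n0, n1, n2, c01, c02, c12, l012, nb⟩ with hb | hb | hb | hb | hb | hb | hb
  · exact cb0 hb
  · have := C.e2 (show n + 1 < n + 3 by omega) hb
    simp only [add_assoc, Nat.reduceAdd] at this
    linarith
  · have := C.e2 (show n + 1 < n + 4 by omega) hb
    simp only [add_assoc, Nat.reduceAdd] at this
    linarith
  · have := C.e2 (show n + 1 < n + 5 by omega) (hb.trans h3.symm)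
    simp only [add_assoc, Nat.reduceAdd] at this
    linarith
  · -- b ≡ z0 + z1
    have e : cl (z (n + 1)) + cl (z (n + 2)) + cl (z (n + 3)) = 0 := by
      rw [hb]; generalize cl (z (n + 2)) = p; generalize cl (z (n + 3)) = q
      revert p q; decide
    have e' : cl (z (n + 1)) + cl (z (n + 4)) + cl (z (n + 5)) = 0 := by
      rw [hb, h3]; generalize cl (z (n + 2)) = p; generalize cl (z (n + 3)) = q
      generalize cl (z (n + 4)) = r
      revert p q r; decide
    have := C.e1 (show n + 1 < n + 2 by omega) (show n + 2 < n + 3 by omega) e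
    have := C.e1 (show n + 1 < n + 4 by omega) (show n + 4 < n + 5 by omega) e'
    linarith
  · -- b ≡ z0 + z2
    have e : cl (z (n + 1)) + cl (z (n + 2)) + cl (z (n + 4)) = 0 := by
      rw [hb]; generalize cl (z (n + 2)) = p; generalize cl (z (n + 4)) = q
      revert p q; decide
    have e' : cl (z (n + 1)) + cl (z (n + 3)) + cl (z (n + 5)) = 0 := by
      rw [hb, h3]; generalize cl (z (n + 2)) = p; generalize cl (z (n + 3)) = q
      generalize cl (z (n + 4)) = r
      revert p q r; decide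
    have s1 := C.e1 (show n + 1 < n + 2 by omega) (show n + 2 < n + 4 by omega) e
    have s2 := C.e1 (show n + 1 < n + 3 by omega) (show n + 3 < n + 5 by omega) e'
    obtain ⟨w, hw⟩ := cl_half (show cl (z (n + 1) + z (n + 2) + z (n + 4)) = 0 by
      rw [cl_add, cl_add, e])
    obtain ⟨w', hw'⟩ := cl_half (show cl (z (n + 1) + z (n + 3) + z (n + 5)) = 0 by
      rw [cl_add, cl_add, e'])
    by_cases hne' : w' = z (n + 5)
    · have g3 : z (n + 5) = z (n + 3) + z (n + 1) := by
        rw [hne'] at hw'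
        have h4 : z (n + 1) + z (n + 3) = z (n + 5) := add_right_cancel hw'
        rw [← h4, add_comm]
      by_cases hne : w = z (n + 4)
      · have g2 : z (n + 4) = z (n + 2) + z (n + 1) := by
          rw [hne] at hw
          have h4 : z (n + 1) + z (n + 2) = z (n + 4) := add_right_cancel hw
          rw [← h4, add_comm]
        have hh2 := congrArg h g2
        have hh3 := congrArg h g3
        rw [map_add] at hh2 hh3
        have q1 : h (z (n + 3)) < h (z (n + 2)) + h (z n) := by linarith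
        have k2 : cl (z (n + 4)) = cl (z (n + 2)) + cl (z (n + 1)) := by rw [g2, cl_add]
        have k3 : cl (z (n + 5)) = cl (z (n + 3)) + cl (z (n + 1)) := by rw [g3, cl_add]
        rcases comb2 _ _ _ _ ⟨n0, n1, n2, c01, c02, c12, l012, na⟩ with ha | ha | ha | ha | ha | ha | ha
        · obtain ⟨y, hy⟩ := cl_half (show cl (z n + z (n + 2)) = 0 by
            rw [cl_add, ha, x2])
          exact C.leafX0 n y hy g2 g3 q1
        · have t := C.e2 (show n < n + 3 by omega) ha
          obtain ⟨y, hy⟩ := cl_half (show cl (z n + z (n + 3)) = 0 by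
            rw [cl_add, ha, x2])
          exact C.leafX1 n y hy g2 g3 q1 t
        · have t := C.e2 (show n < n + 4 by omega) ha
          obtain ⟨y, hy⟩ := cl_half (show cl (z n + z (n + 1) + z (n + 2)) = 0 by
            rw [cl_add, cl_add, ha, k2]; generalize cl (z (n + 2)) = p
            generalize cl (z (n + 1)) = q; revert p q; decide)
          exact C.leafX2 n y hy g2 g3 q1 (by linarith)
        · have t := C.e2 (show n < n + 5 by omega) (ha.trans h3.symm)
          obtain ⟨y, hy⟩ := cl_half (show cl (z n + z (n + 1) + z (n + 3)) = 0 by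
            rw [cl_add, cl_add, ha.trans h3.symm, k3]; generalize cl (z (n + 3)) = p
            generalize cl (z (n + 1)) = q; revert p q; decide)
          exact C.leafX3 n y hy g2 g3 q1 (by linarith)
        · have e2 : cl (z n) + cl (z (n + 2)) + cl (z (n + 3)) = 0 := by
            rw [ha]; generalize cl (z (n + 2)) = p; generalize cl (z (n + 3)) = q
            revert p q; decide
          have := C.e1 (show n < n + 2 by omega) (show n + 2 < n + 3 by omega) e2
          linarith
        · exact cab (by rw [ha, hb])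
        · obtain ⟨y, hy⟩ := cl_half (show cl (z n + z (n + 1) + z (n + 2) + z (n + 3)) = 0 by
            rw [cl_add, cl_add, cl_add, ha, k2]; generalize cl (z (n + 2)) = p
            generalize cl (z (n + 1)) = q; generalize cl (z (n + 3)) = r
            revert p q r; decide)
          exact C.leafX4 n y hy g2 g3 q1
      · exact C.leafQ2 n w hw hne g3 (by linarith) (by linarith) (by linarith)
    · exact C.leafQ1 n w' hw' hne' (by linarith) (by linarith) (by linarith) (by linarith)
  · -- b ≡ z1 + z2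
    have e : cl (z (n + 1)) + cl (z (n + 3)) + cl (z (n + 4)) = 0 := by
      rw [hb]; generalize cl (z (n + 3)) = p; generalize cl (z (n + 4)) = q
      revert p q; decide
    have s1 := C.e1 (show n + 1 < n + 3 by omega) (show n + 3 < n + 4 by omega) e
    obtain ⟨w, hw⟩ := cl_half (show cl (z (n + 1) + z (n + 3) + z (n + 4)) = 0 by
      rw [cl_add, cl_add, e])
    obtain ⟨g, hg⟩ := cl_half (show cl (z (n + 2) + z (n + 3) + z (n + 4) + z (n + 5)) = 0 by
      rw [cl_add, cl_add, cl_add, hsum])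
    exact C.leafS n g w hg hw (by linarith) (by linarith) (by linarith)

end Chain

end Pool.Agent.Helper224.BestApprox
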