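import Mathlib
import Pool.Agent.Helper224_BestApprox.Basic
import Pool.Agent.Helper224_BestApprox.Euclid

set_option autoImplicit false

namespace Pool.Agent.Helper224.BestApprox

open Filter Topology

/-- The Euclidean norm on the plane given by the quadratic form `α x² + 2 β x y + γ y²`. -/
noncomputable def eucl (α β γ : ℝ) (x : Fin 2 → ℝ) : ℝ :=
  √(α * x 0 ^ 2 + 2 * β * x 0 * x 1 + γ * x 1 ^ 2)

/-- the linear map to the complex plane -/
noncomputable def toC (α β γ : ℝ) (x : Fin 2 → ℝ) : ℂ :=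
  ⟨√α * x 0 + β / √α * x 1, √(γ - β ^ 2 / α) * x 1⟩

lemma form_eq {α β γ : ℝ} (hα : 0 < α) (hd : β ^ 2 < α * γ) (x : Fin 2 → ℝ) :
    α * x 0 ^ 2 + 2 * β * x 0 * x 1 + γ * x 1 ^ 2 =
      (√α * x 0 + β / √α * x 1) ^ 2 + (√(γ - β ^ 2 / α) * x 1) ^ 2 := by
  have h1 : (√α) ^ 2 = α := Real.sq_sqrt hα.le
  have h2 : 0 ≤ γ - β ^ 2 / α := by
    rw [sub_nonneg, div_le_iff₀ hα]; linarith
  have h3 : (√(γ - β ^ 2 / α)) ^ 2 = γ - β ^ 2 / α := Real.sq_sqrt h2
  have h4 : √α ≠ 0 := (Real.sqrt_pos.mpr hα).ne'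
  have h5 : (√α * x 0 + β / √α * x 1) ^ 2 = α * x 0 ^ 2 + 2 * β * x 0 * x 1 + β ^ 2 / α * x 1 ^ 2 := by
    have : (√α * x 0 + β / √α * x 1) ^ 2 =
      (√α) ^ 2 * x 0 ^ 2 + 2 * β * (√α / √α) * x 0 * x 1 + β ^ 2 / (√α) ^ 2 * x 1 ^ 2 := by
      field_simp
      ring
    rw [this, h1, div_self h4]; ring
  rw [h5, mul_pow, h3]; ring

lemma eucl_eq {α β γ : ℝ} (hα : 0 < α) (hd : β ^ 2 < α * γ) (x : Fin 2 → ℝ) :
    eucl α β γ x = ‖toC α β γ x‖ := by
  unfold eucl
  rw [form_eq hα hd, Complex.norm_eq_sqrt_sq_add_sq]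
  rfl

lemma eucl_isNorm {α β γ : ℝ} (hα : 0 < α) (hd : β ^ 2 < α * γ) : IsNorm (eucl α β γ) := by
  refine ⟨fun x hx => ?_, fun x y => ?_, fun r x => ?_⟩
  · rw [eucl_eq hα hd, norm_eq_zero] at hx
    have h1 := congrArg Complex.im hx
    have h2 := congrArg Complex.re hx
    simp only [toC, Complex.zero_im, Complex.zero_re] at h1 h2
    have h3 : 0 < γ - β ^ 2 / α := by
      rw [sub_pos, div_lt_iff₀ hα]; linarith
    have h4 : x 1 = 0 := (mul_eq_zero.mp h1).resolve_left (Real.sqrt_pos.mpr h3).ne'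
    rw [h4, mul_zero, add_zero] at h2
    have h5 : x 0 = 0 := (mul_eq_zero.mp h2).resolve_left (Real.sqrt_pos.mpr hα).ne'
    ext i; fin_cases i
    · exact h5
    · exact h4
  · rw [eucl_eq hα hd, eucl_eq hα hd, eucl_eq hα hd]
    refine le_trans (le_of_eq ?_) (norm_add_le _ _)
    congr 1
    apply Complex.ext
    · simp only [toC, Pi.add_apply, Complex.add_re]; ring
    · simp only [toC, Pi.add_apply, Complex.add_im]; ring
  · rw [eucl_eq hα hd, eucl_eq hα hd]
    have : toC α β γ (r • x) = (r : ℂ) * toC α β γ x := by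
      apply Complex.ext
      · simp only [toC, Pi.smul_apply, smul_eq_mul, Complex.mul_re, Complex.ofReal_re,
          Complex.ofReal_im]; ring
      · simp only [toC, Pi.smul_apply, smul_eq_mul, Complex.mul_im, Complex.ofReal_re,
          Complex.ofReal_im]; ring
    rw [this, norm_mul, Complex.norm_real, Real.norm_eq_abs]

/-- height -/
noncomputable def hgt : Lam →+ ℝ where
  toFun w := (w.1 : ℝ)
  map_zero' := by simp
  map_add' x y := by simp

/-- first coordinate of the projection -/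
noncomputable def uMap (α β γ : ℝ) (θ : Fin 2 → ℝ) : Lam →+ ℝ where
  toFun w := √α * proj θ w 0 + β / √α * proj θ w 1
  map_zero' := by simp [proj]
  map_add' x y := by simp [proj]; ring

/-- second coordinate of the projection -/
noncomputable def vMap (α β γ : ℝ) (θ : Fin 2 → ℝ) : Lam →+ ℝ where
  toFun w := √(γ - β ^ 2 / α) * proj θ w 1
  map_zero' := by simp [proj]
  map_add' x y := by simp [proj]; ring

lemma Q_eq {α β γ : ℝ} (hα : 0 < α) (hd : β ^ 2 < α * γ) (θ : Fin 2 → ℝ) (w : Lam) :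
    Q (uMap α β γ θ) (vMap α β γ θ) w = (eucl α β γ (proj θ w)) ^ 2 := by
  unfold eucl
  rw [form_eq hα hd, Real.sq_sqrt (by positivity)]
  rfl

/-- The local inequality for Euclidean norms. -/
theorem euclid_local {α β γ : ℝ} (hα : 0 < α) (hd : β ^ 2 < α * γ) {θ : Fin 2 → ℝ}
    (hθ : Admissible θ) : ∃ ν0 : ℕ, ∀ ν, ν0 ≤ ν →
      M (eucl α β γ) θ (ν + 3) + M (eucl α β γ) θ (ν + 2) ≤ M (eucl α β γ) θ (ν + 5) ∨
      M (eucl α β γ) θ (ν + 2) + M (eucl α β γ) θ (ν + 1) + M (eucl α β γ) θ ν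
        ≤ M (eucl α β γ) θ (ν + 5) := by
  have hN := eucl_isNorm hα hd
  obtain ⟨n0, z, h1, h2, h3⟩ := exists_chain hN θ hθ
  have hh : ∀ ν, hgt (z ν) = (M (eucl α β γ) θ (n0 + ν) : ℝ) := by
    intro ν
    change ((z ν).1 : ℝ) = _
    rw [h1]; simp
  have C : Chain hgt (uMap α β γ θ) (vMap α β γ θ) z := by
    refine ⟨fun n => ?_, fun n => ?_, fun n => ?_, fun n w hw hlt => ?_⟩
    · rw [hh]; exact_mod_cast (M_isBest hN θ hθ _).1
    · rw [hh, hh]; exact_mod_cast M_strictMono hN θ hθ (show n0 + n < n0 + (n + 1) by omega)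
    · rw [Q_eq hα hd, Q_eq hα hd]
      exact pow_lt_pow_left₀ (h2 n) (hN.nonneg _) two_ne_zero
    · rw [Q_eq hα hd, Q_eq hα hd]
      refine pow_le_pow_left₀ (hN.nonneg _) (h3 n w hw ?_) 2
      have : |(w.1 : ℝ)| < ((z (n + 1)).1 : ℝ) := hlt
      exact_mod_cast this
  refine ⟨n0, fun ν hν => ?_⟩
  obtain ⟨m, rfl⟩ : ∃ m, ν = n0 + m := ⟨ν - n0, by omega⟩
  have := C.key m
  simp only [hh] at this
  simp only [add_assoc]
  rcases this with h | h
  · left; exact_mod_cast h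
  · right; simp only [add_assoc] at h; exact_mod_cast h

/-- From the local inequality to exponential growth. -/
theorem growth_of_local {φ : ℝ} (hφ : φ ^ 3 = φ + 1) (X : ℕ → ℕ) (hX : ∀ n, 0 < X n) (n0 : ℕ)
    (hloc : ∀ n, n0 ≤ n → X (n + 3) + X (n + 2) ≤ X (n + 5) ∨
      X (n + 2) + X (n + 1) + X n ≤ X (n + 5)) :
    ∃ C : ℝ, 0 < C ∧ ∀ n, C * φ ^ n ≤ X n := by
  have hφ0 : 1 < φ := by
    by_contra h
    push Not at h
    rcases le_or_gt φ 0 with h0 | h0
    · nlinarith [sq_nonneg φ, sq_nonneg (φ + 1), mul_nonneg (sq_nonneg φ) (neg_nonneg.mpr h0)]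
    · nlinarith [sq_nonneg φ, pow_pos h0 2]
  -- constant for the first n0 + 5 terms
  have hC : ∀ m : ℕ, ∃ C : ℝ, 0 < C ∧ ∀ n, n < m → C * φ ^ n ≤ X n := by
    intro m
    induction m with
    | zero => exact ⟨1, one_pos, fun n hn => absurd hn (Nat.not_lt_zero n)⟩
    | succ m ih =>
      obtain ⟨C, hC, h⟩ := ih
      have hp : 0 < φ ^ m := by positivity
      have hXm : (0 : ℝ) < X m := by exact_mod_cast hX m
      refine ⟨min C (X m / φ ^ m), lt_min hC (div_pos hXm hp), fun n hn => ?_⟩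
      rcases Nat.lt_or_ge n m with h1 | h1
      · exact (mul_le_mul_of_nonneg_right (min_le_left _ _) (by positivity)).trans (h n h1)
      · have : n = m := by omega
        subst this
        calc min C (X n / φ ^ n) * φ ^ n ≤ X n / φ ^ n * φ ^ n :=
              mul_le_mul_of_nonneg_right (min_le_right _ _) hp.le
          _ = X n := by field_simp
  obtain ⟨C, hC0, hC⟩ := hC (n0 + 5)
  refine ⟨C, hC0, fun n => ?_⟩
  induction n using Nat.strong_induction_on with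
  | _ n ih =>
    rcases Nat.lt_or_ge n (n0 + 5) with h | h
    · exact hC n h
    · obtain ⟨m, rfl⟩ : ∃ m, n = m + 5 := ⟨n - 5, by omega⟩
      have i0 := ih m (by omega)
      have i1 := ih (m + 1) (by omega)
      have i2 := ih (m + 2) (by omega)
      have i3 := ih (m + 3) (by omega)
      have e5 : φ ^ 5 = φ ^ 3 + φ ^ 2 := by nlinarith
      have e5' : φ ^ 5 = φ ^ 2 + φ + 1 := by rw [e5, hφ]; ring
      rcases hloc m (by omega) with h1 | h1
      · have h2 : (X (m + 3) : ℝ) + X (m + 2) ≤ X (m + 5) := by exact_mod_cast h1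
        calc C * φ ^ (m + 5) = C * φ ^ (m + 3) + C * φ ^ (m + 2) := by
              rw [pow_add, pow_add, pow_add, e5]; ring
          _ ≤ _ := by linarith
      · have h2 : (X (m + 2) : ℝ) + X (m + 1) + X m ≤ X (m + 5) := by exact_mod_cast h1
        calc C * φ ^ (m + 5) = C * φ ^ (m + 2) + C * φ ^ (m + 1) + C * φ ^ m := by
              rw [pow_add, pow_add, pow_add, e5']; ring
          _ ≤ _ := by linarith

/-- The lower bound for Euclidean norms. -/
theorem euclid_lower {φ : ℝ} (hφ : φ ^ 3 = φ + 1) {α β γ : ℝ} (hα : 0 < α)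
    (hd : β ^ 2 < α * γ) {θ : Fin 2 → ℝ} (hθ : Admissible θ) :
    ∃ C : ℝ, 0 < C ∧ ∀ ν, C * φ ^ ν ≤ M (eucl α β γ) θ ν := by
  obtain ⟨n0, h⟩ := euclid_local hα hd hθ
  exact growth_of_local hφ _ (fun n => (M_isBest (eucl_isNorm hα hd) θ hθ n).1) n0 h

end Pool.Agent.Helper224.BestApprox
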