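import Mathlib
import Pool.Agent.Helper224_BestApprox.Growth

set_option autoImplicit false

namespace Pool.Agent.Helper224.BestApprox

open Filter Topology

namespace Plastic

/-- the norm form of `x + y t + z t²`, `t³ = t + 1` -/
def F (x y z : ℤ) : ℤ :=
  x ^ 3 + y ^ 3 + z ^ 3 + 2 * x ^ 2 * z - x * y ^ 2 - 3 * x * y * z + x * z ^ 2 - y * z ^ 2

lemma F_mod_two : ∀ x y z : ZMod 2,
    x ^ 3 + y ^ 3 + z ^ 3 + 2 * x ^ 2 * z - x * y ^ 2 - 3 * x * y * z + x * z ^ 2 - y * z ^ 2 = 0 →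
    x = 0 ∧ y = 0 ∧ z = 0 := by decide

lemma F_eq_zero : ∀ (n : ℕ) (x y z : ℤ), x.natAbs + y.natAbs + z.natAbs ≤ n → F x y z = 0 →
    x = 0 ∧ y = 0 ∧ z = 0 := by
  intro n
  induction n with
  | zero =>
    intro x y z h _
    refine ⟨?_, ?_, ?_⟩ <;> omega
  | succ n ih =>
    intro x y z h hF
    have h2 := F_mod_two (x : ZMod 2) (y : ZMod 2) (z : ZMod 2) (by
      have := congrArg (Int.cast : ℤ → ZMod 2) hF
      unfold F at this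
      push_cast at this
      exact this)
    obtain ⟨hx, hy, hz⟩ := h2
    rw [ZMod.intCast_zmod_eq_zero_iff_dvd] at hx hy hz
    obtain ⟨x', rfl⟩ := hx
    obtain ⟨y', rfl⟩ := hy
    obtain ⟨z', rfl⟩ := hz
    push_cast at *
    have hF' : F x' y' z' = 0 := by
      have : F (2 * x') (2 * y') (2 * z') = 8 * F x' y' z' := by unfold F; ring
      rw [this] at hF
      omega
    by_cases h0 : x' = 0 ∧ y' = 0 ∧ z' = 0
    · obtain ⟨rfl, rfl, rfl⟩ := h0; simp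
    · obtain ⟨rfl, rfl, rfl⟩ := ih x' y' z' (by
        by_contra hcon
        apply h0
        refine ⟨?_, ?_, ?_⟩ <;> omega) hF'
      simp

variable {φ : ℝ}

lemma phi_bounds (hφ : φ ^ 3 = φ + 1) : 1.3247 < φ ∧ φ < 1.3248 := by
  have h0 : 0 < φ := by
    by_contra h
    push Not at h
    nlinarith [sq_nonneg φ, sq_nonneg (φ + 1), mul_nonneg (sq_nonneg φ) (neg_nonneg.mpr h)]
  constructor
  · by_contra h
    push Not at h
    nlinarith [mul_nonneg (sub_nonneg.mpr h) (by positivity : (0:ℝ) ≤ φ ^ 2 + 1.3247 * φ + 0.7)]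
  · by_contra h
    push Not at h
    nlinarith [mul_nonneg (sub_nonneg.mpr h) (by positivity : (0:ℝ) ≤ φ ^ 2 + 1.3248 * φ + 0.7)]

/-- The point. -/
noncomputable def th (φ : ℝ) : Fin 2 → ℝ :=
  ![(φ ^ 2 - 1) / (7 * φ ^ 2 + 2 * φ - 6), -(2 * φ ^ 2 + φ - 2) / (7 * φ ^ 2 + 2 * φ - 6)]

/-- real embedding -/
noncomputable def Rw (φ : ℝ) (w : Lam) : ℝ :=
  (w.2.1 : ℝ) + (-2 * w.2.1 - w.2.2) * φ + (w.1 - 3 * w.2.1 + 2 * w.2.2) * φ ^ 2

noncomputable def Aw (φ : ℝ) (w : Lam) : ℝ :=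
  (w.2.1 : ℝ) - (φ ^ 2 - 1) * (w.1 - 3 * w.2.1 + 2 * w.2.2)

noncomputable def Bw (φ : ℝ) (w : Lam) : ℝ :=
  (-2 * w.2.1 - w.2.2 : ℝ) - φ * (w.1 - 3 * w.2.1 + 2 * w.2.2)

/-- square of the absolute value of the complex embedding -/
noncomputable def Tw (φ : ℝ) (w : Lam) : ℝ :=
  Aw φ w ^ 2 - φ * Aw φ w * Bw φ w + (φ ^ 2 - 1) * Bw φ w ^ 2

/-- coordinates -/
def crd (w : Lam) : ℤ × ℤ × ℤ := (w.2.1, -2 * w.2.1 - w.2.2, w.1 - 3 * w.2.1 + 2 * w.2.2)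

lemma RT_eq (hφ : φ ^ 3 = φ + 1) (w : Lam) :
    Rw φ w * Tw φ w = (F (crd w).1 (crd w).2.1 (crd w).2.2 : ℤ) := by
  obtain ⟨q, a, b⟩ := w
  simp only [Rw, Tw, Aw, Bw, crd, F]
  push_cast
  generalize hx : (a : ℝ) = x
  generalize hy : (-2 * x - (b : ℝ)) = y
  generalize hz : ((q : ℝ) - 3 * x + 2 * b) = z
  have key : (x + y * φ + z * φ ^ 2) * ((x - (φ ^ 2 - 1) * z) ^ 2 -
      φ * (x - (φ ^ 2 - 1) * z) * (y - φ * z) + (φ ^ 2 - 1) * (y - φ * z) ^ 2)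
      - (x ^ 3 + y ^ 3 + z ^ 3 + 2 * x ^ 2 * z - x * y ^ 2 - 3 * x * y * z + x * z ^ 2 - y * z ^ 2)
      = (φ ^ 3 - φ - 1) * (y ^ 3 - 3 * x * y * z + z ^ 3 * (φ ^ 3 - φ + 1) - y * z ^ 2 + x * z ^ 2 * 0) := by
    ring
  have : φ ^ 3 - φ - 1 = 0 := by linarith
  rw [this, zero_mul] at key
  linarith

lemma crd_eq_zero {w : Lam} (h : crd w = 0) : w = 0 := by
  obtain ⟨q, a, b⟩ := w
  simp only [crd, Prod.mk_eq_zero] at h
  obtain ⟨h1, h2, h3⟩ := h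
  have hb : b = 0 := by omega
  have hq : q = 0 := by omega
  rw [h1, hb, hq]; rfl

lemma one_le_RT (hφ : φ ^ 3 = φ + 1) {w : Lam} (hw : w ≠ 0) : 1 ≤ |Rw φ w * Tw φ w| := by
  rw [RT_eq hφ]
  have h0 : F (crd w).1 (crd w).2.1 (crd w).2.2 ≠ 0 := by
    intro h
    obtain ⟨h1, h2, h3⟩ := F_eq_zero _ _ _ _ le_rfl h
    exact hw (crd_eq_zero (Prod.ext h1 (Prod.ext h2 h3)))
  exact_mod_cast Int.one_le_abs h0

lemma D_pos (hφ : φ ^ 3 = φ + 1) : 0 < 7 * φ ^ 2 + 2 * φ - 6 := by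
  obtain ⟨h1, h2⟩ := phi_bounds hφ
  nlinarith

lemma Aw_eq (hφ : φ ^ 3 = φ + 1) (w : Lam) : Aw φ w =
    -((3 * φ ^ 2 - 2) * proj (th φ) w 0 - 2 * (φ ^ 2 - 1) * proj (th φ) w 1) := by
  have hD := inv_mul_cancel₀ (D_pos hφ).ne'
  simp only [Aw, proj, th, Matrix.cons_val_zero, Matrix.cons_val_one, Matrix.cons_val_fin_one,
    div_eq_mul_inv]
  linear_combination ((w.1 : ℝ) * (φ ^ 2 - 1)) * hD

lemma Bw_eq (hφ : φ ^ 3 = φ + 1) (w : Lam) : Bw φ w =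
    -((3 * φ - 2) * proj (th φ) w 0 - (1 + 2 * φ) * proj (th φ) w 1) := by
  have hD := inv_mul_cancel₀ (D_pos hφ).ne'
  simp only [Bw, proj, th, Matrix.cons_val_zero, Matrix.cons_val_one, Matrix.cons_val_fin_one,
    div_eq_mul_inv]
  linear_combination ((w.1 : ℝ) * φ) * hD

lemma Rw_eq (hφ : φ ^ 3 = φ + 1) (w : Lam) : Rw φ w =
    (3 * φ ^ 2 - 1) / (7 * φ ^ 2 + 2 * φ - 6) * w.1
      - (proj (th φ) w 0 * (1 - 2 * φ - 3 * φ ^ 2) + proj (th φ) w 1 * (2 * φ ^ 2 - φ)) := by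
  have hD := inv_mul_cancel₀ (D_pos hφ).ne'
  simp only [Rw, proj, th, Matrix.cons_val_zero, Matrix.cons_val_one, Matrix.cons_val_fin_one,
    div_eq_mul_inv]
  linear_combination (-(w.1 : ℝ) * φ ^ 2) * hD

lemma Tw_eq (hφ : φ ^ 3 = φ + 1) (w : Lam) : Tw φ w =
    (-6 + 11 * φ - 2 * φ ^ 2) * proj (th φ) w 0 ^ 2
      + (-11 - 11 * φ + 14 * φ ^ 2) * proj (th φ) w 0 * proj (th φ) w 1
      + (5 + 4 * φ - 3 * φ ^ 2) * proj (th φ) w 1 ^ 2 := by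
  unfold Tw
  rw [Aw_eq hφ, Bw_eq hφ]
  generalize proj (th φ) w 0 = x
  generalize proj (th φ) w 1 = y
  linear_combination ((-6 + 9 * φ) * x ^ 2 + (1 - 12 * φ) * x * y + (2 + 4 * φ) * y ^ 2) * hφ

/-- squared Euclidean length of the projection -/
noncomputable def sq (φ : ℝ) (w : Lam) : ℝ := proj (th φ) w 0 ^ 2 + proj (th φ) w 1 ^ 2

lemma quad_nonneg {a b c : ℝ} (ha : 0 < a) (h : b ^ 2 ≤ 4 * a * c) (x y : ℝ) :
    0 ≤ a * x ^ 2 + b * x * y + c * y ^ 2 := by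
  have h1 : 0 ≤ 4 * a * (a * x ^ 2 + b * x * y + c * y ^ 2) := by
    have : 4 * a * (a * x ^ 2 + b * x * y + c * y ^ 2) =
      (2 * a * x + b * y) ^ 2 + (4 * a * c - b ^ 2) * y ^ 2 := by ring
    rw [this]
    have := mul_nonneg (sub_nonneg.mpr h) (sq_nonneg y)
    positivity
  by_contra hcon
  push Not at hcon
  nlinarith

lemma Tw_ge (hφ : φ ^ 3 = φ + 1) (w : Lam) : 4.5 * sq φ w ≤ Tw φ w := by
  obtain ⟨h1, h2⟩ := phi_bounds hφ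
  rw [Tw_eq hφ, sq]
  have hp1 : φ ^ 2 < 1.7551 := by nlinarith
  have hp2 : 1.7548 < φ ^ 2 := by nlinarith
  have := quad_nonneg (a := -6 + 11 * φ - 2 * φ ^ 2 - 4.5) (b := -11 - 11 * φ + 14 * φ ^ 2)
    (c := 5 + 4 * φ - 3 * φ ^ 2 - 4.5) (by linarith)
    (by
      have a1 : 0.5614 < -6 + 11 * φ - 2 * φ ^ 2 - 4.5 := by linarith
      have a2 : 0.5334 < 5 + 4 * φ - 3 * φ ^ 2 - 4.5 := by linarith
      have a3 : -1.0058 < -11 - 11 * φ + 14 * φ ^ 2 := by linarith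
      have a4 : -11 - 11 * φ + 14 * φ ^ 2 < 0 := by linarith
      nlinarith [mul_pos (sub_pos.mpr a1) (sub_pos.mpr a2)]) (proj (th φ) w 0) (proj (th φ) w 1)
  linarith

lemma Tw_le (hφ : φ ^ 3 = φ + 1) (w : Lam) : Tw φ w ≤ 5.6 * sq φ w := by
  obtain ⟨h1, h2⟩ := phi_bounds hφ
  rw [Tw_eq hφ, sq]
  have hp1 : φ ^ 2 < 1.7551 := by nlinarith
  have hp2 : 1.7548 < φ ^ 2 := by nlinarith
  have := quad_nonneg (a := 5.6 - (-6 + 11 * φ - 2 * φ ^ 2)) (b := -(-11 - 11 * φ + 14 * φ ^ 2))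
    (c := 5.6 - (5 + 4 * φ - 3 * φ ^ 2)) (by linarith)
    (by
      have a1 : 0.5368 < 5.6 - (-6 + 11 * φ - 2 * φ ^ 2) := by linarith
      have a2 : 0.5652 < 5.6 - (5 + 4 * φ - 3 * φ ^ 2) := by linarith
      have a3 : -1.0058 < -11 - 11 * φ + 14 * φ ^ 2 := by linarith
      have a4 : -11 - 11 * φ + 14 * φ ^ 2 < 0 := by linarith
      nlinarith [mul_pos (sub_pos.mpr a1) (sub_pos.mpr a2)]) (proj (th φ) w 0) (proj (th φ) w 1)
  linarith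

/-- multiplication by `φ` -/
def step (w : Lam) : Lam :=
  (9 * w.1 - 27 * w.2.1 + 17 * w.2.2, w.1 - 3 * w.2.1 + 2 * w.2.2, -3 * w.1 + 8 * w.2.1 - 6 * w.2.2)

lemma Rw_step (hφ : φ ^ 3 = φ + 1) (w : Lam) : Rw φ (step w) = φ * Rw φ w := by
  obtain ⟨q, a, b⟩ := w
  simp only [Rw, step]
  push_cast
  linear_combination (-(q : ℝ) + 3 * a - 2 * b) * hφ

lemma Tw_step (hφ : φ ^ 3 = φ + 1) (w : Lam) : Tw φ (step w) = (φ ^ 2 - 1) * Tw φ w := by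
  obtain ⟨q, a, b⟩ := w
  have hA : Aw φ (step (q, a, b)) = -(φ ^ 2 - 1) * Bw φ (q, a, b) := by
    simp only [Aw, Bw, step]
    push_cast
    linear_combination (-(q : ℝ) + 3 * a - 2 * b) * hφ
  have hB : Bw φ (step (q, a, b)) = Aw φ (q, a, b) - φ * Bw φ (q, a, b) := by
    simp only [Aw, Bw, step]
    push_cast
    ring
  have hp : (φ ^ 2 - 1) * φ = 1 := by linarith
  unfold Tw
  rw [hA, hB]
  generalize Aw φ (q, a, b) = A
  generalize Bw φ (q, a, b) = B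
  ring

/-- the powers of `φ` -/
def U : ℕ → Lam
  | 0 => (7, 1, -2)
  | n + 1 => step (U n)

lemma Rw_U (hφ : φ ^ 3 = φ + 1) (n : ℕ) : Rw φ (U n) = φ ^ n := by
  induction n with
  | zero => simp [Rw, U]; norm_num
  | succ n ih => rw [U, Rw_step hφ, ih]; ring

lemma Tw_U (hφ : φ ^ 3 = φ + 1) (n : ℕ) : Tw φ (U n) = (φ ^ 2 - 1) ^ n := by
  induction n with
  | zero => simp [Tw, Aw, Bw, U]; norm_num
  | succ n ih => rw [U, Tw_step hφ, ih]; ring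


lemma eucl_sq (w : Lam) : eucl 1 0 1 (proj (th φ) w) ^ 2 = sq φ w := by
  unfold eucl sq
  rw [Real.sq_sqrt (by nlinarith [sq_nonneg (proj (th φ) w 0), sq_nonneg (proj (th φ) w 1)])]
  ring

lemma hN : IsNorm (eucl 1 0 1) := eucl_isNorm one_pos (by norm_num)

lemma admissible (hφ : φ ^ 3 = φ + 1) : Admissible (th φ) := by
  intro q hq h
  obtain ⟨a, ha⟩ := h 0
  obtain ⟨b, hb⟩ := h 1
  have h0 : ((q, a, b) : Lam) ≠ 0 := fun h => hq (congrArg Prod.fst h)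
  have h1 : sq φ (q, a, b) = 0 := by
    simp [sq, proj, ha, hb]
  have h2 := Tw_le hφ (q, a, b)
  have h3 := Tw_ge hφ (q, a, b)
  rw [h1] at h2 h3
  have h4 : Tw φ (q, a, b) = 0 := by linarith
  have h5 := one_le_RT hφ h0
  rw [h4, mul_zero, abs_zero] at h5
  linarith

/-- the constant relating the denominator to the real embedding -/
noncomputable def kap (φ : ℝ) : ℝ := (3 * φ ^ 2 - 1) / (7 * φ ^ 2 + 2 * φ - 6)

lemma kap_pos (hφ : φ ^ 3 = φ + 1) : 0 < kap φ := by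
  obtain ⟨h1, h2⟩ := phi_bounds hφ
  exact div_pos (by nlinarith) (D_pos hφ)

lemma Rw_close (hφ : φ ^ 3 = φ + 1) (w : Lam) {e : ℝ} (he : 0 ≤ e) (h : sq φ w ≤ e ^ 2) :
    |Rw φ w - kap φ * w.1| ≤ 10 * e := by
  obtain ⟨h1, h2⟩ := phi_bounds hφ
  have hp1 : φ ^ 2 < 1.7551 := by nlinarith
  have hp2 : 1.7548 < φ ^ 2 := by nlinarith
  have hx : |proj (th φ) w 0| ≤ e := by
    apply abs_le_of_sq_le_sq _ he
    have := sq_nonneg (proj (th φ) w 1)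
    unfold sq at h; linarith
  have hy : |proj (th φ) w 1| ≤ e := by
    apply abs_le_of_sq_le_sq _ he
    have := sq_nonneg (proj (th φ) w 0)
    unfold sq at h; linarith
  rw [Rw_eq hφ, kap]
  rw [abs_le] at hx hy ⊢
  generalize proj (th φ) w 0 = x at *
  generalize proj (th φ) w 1 = y at *
  generalize (3 * φ ^ 2 - 1) / (7 * φ ^ 2 + 2 * φ - 6) * (w.1 : ℝ) = c
  have c1 : -7 ≤ 1 - 2 * φ - 3 * φ ^ 2 := by linarith
  have c2 : 1 - 2 * φ - 3 * φ ^ 2 ≤ 0 := by linarith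
  have c3 : 0 ≤ 2 * φ ^ 2 - φ := by linarith
  have c4 : 2 * φ ^ 2 - φ ≤ 3 := by linarith
  constructor
  · nlinarith [mul_nonneg (sub_nonneg.mpr hx.1) (sub_nonneg.mpr c1)]
  · nlinarith

lemma p_phi (hφ : φ ^ 3 = φ + 1) : (φ ^ 2 - 1) * φ = 1 := by linarith

lemma exists_small (hφ : φ ^ 3 = φ + 1) : ∃ n1 : ℕ, ∀ n, n1 ≤ n → (φ ^ 2 - 1) ^ n < 1 / 1000 := by
  obtain ⟨h1, h2⟩ := phi_bounds hφ
  have hp1 : φ ^ 2 - 1 < 1 := by nlinarith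
  have hp0 : 0 ≤ φ ^ 2 - 1 := by nlinarith
  have := tendsto_pow_atTop_nhds_zero_of_lt_one hp0 hp1
  have h3 := (tendsto_order.mp this).2 (1 / 1000) (by norm_num)
  rw [eventually_atTop] at h3
  exact h3

lemma pow_phi_eq (hφ : φ ^ 3 = φ + 1) (n : ℕ) : φ ^ n * (φ ^ 2 - 1) ^ n = 1 := by
  rw [← mul_pow, mul_comm φ, p_phi hφ, one_pow]

lemma sq_U_le (hφ : φ ^ 3 = φ + 1) (n : ℕ) : sq φ (U n) ≤ (φ ^ 2 - 1) ^ n / 4.5 := by
  have := Tw_ge hφ (U n)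
  rw [Tw_U hφ] at this
  rw [le_div_iff₀ (by norm_num)]
  linarith

lemma sq_nonneg' (w : Lam) : 0 ≤ sq φ w := by unfold sq; positivity

lemma gap (hφ : φ ^ 3 = φ + 1) {n : ℕ} (hn : (φ ^ 2 - 1) ^ n < 1 / 1000) {w : Lam} (hw : w ≠ 0)
    (h0 : 0 ≤ w.1) (hle : w.1 ≤ (U n).1) : (φ ^ 2 - 1) ^ (n + 1) / 4.5 < sq φ w := by
  obtain ⟨h1, h2⟩ := phi_bounds hφ
  have hp1 : φ ^ 2 - 1 < 0.7551 := by nlinarith
  have hp2 : 0.7548 < φ ^ 2 - 1 := by nlinarith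
  have hpn : 0 < (φ ^ 2 - 1) ^ n := pow_pos (by linarith) n
  by_contra hcon
  push Not at hcon
  have e1 : (φ ^ 2 - 1) ^ (n + 1) = (φ ^ 2 - 1) ^ n * (φ ^ 2 - 1) := pow_succ _ _
  have hs : sq φ w ≤ 1 ^ 2 := by
    refine hcon.trans ?_
    rw [div_le_iff₀ (by norm_num), e1]
    nlinarith
  have hsU : sq φ (U n) ≤ 1 ^ 2 := by
    refine (sq_U_le hφ n).trans ?_
    rw [div_le_iff₀ (by norm_num)]
    linarith
  have r1 := Rw_close hφ w zero_le_one hs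
  have r2 := Rw_close hφ (U n) zero_le_one hsU
  rw [Rw_U hφ] at r2
  rw [abs_le] at r1 r2
  have hk := kap_pos hφ
  have hle' : kap φ * (w.1 : ℝ) ≤ kap φ * ((U n).1 : ℝ) :=
    mul_le_mul_of_nonneg_left (by exact_mod_cast hle) hk.le
  have h0' : 0 ≤ kap φ * (w.1 : ℝ) := mul_nonneg hk.le (by exact_mod_cast h0)
  have hR : |Rw φ w| ≤ φ ^ n + 20 := by
    rw [abs_le]
    have : 0 < φ ^ n := pow_pos (by linarith) n
    constructor <;> linarith [r1.1, r1.2, r2.1, r2.2]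
  have hT0 : 0 ≤ Tw φ w := by
    have := Tw_ge hφ w; have := sq_nonneg' (φ := φ) w; linarith
  have hT : Tw φ w ≤ 5.6 / 4.5 * (φ ^ 2 - 1) ^ (n + 1) := by
    have h3 := Tw_le hφ w
    rw [le_div_iff₀ (by norm_num)] at hcon
    linarith
  have h4 := one_le_RT hφ hw
  rw [abs_mul, abs_of_nonneg hT0] at h4
  have h5 : |Rw φ w| * Tw φ w ≤ (φ ^ n + 20) * (5.6 / 4.5 * (φ ^ 2 - 1) ^ (n + 1)) :=
    mul_le_mul hR hT hT0 (by have : 0 < φ ^ n := pow_pos (by linarith) n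
                             linarith)
  have h6 := pow_phi_eq hφ n
  have h7 : (φ ^ n + 20) * (5.6 / 4.5 * (φ ^ 2 - 1) ^ (n + 1)) =
      5.6 / 4.5 * (φ ^ 2 - 1) * (1 + 20 * (φ ^ 2 - 1) ^ n) := by
    rw [e1]
    linear_combination (5.6 / 4.5 * (φ ^ 2 - 1)) * h6
  rw [h7] at h5
  nlinarith

/-- the denominators -/
def m (n : ℕ) : ℕ := (U n).1.toNat

lemma U_pos (hφ : φ ^ 3 = φ + 1) {n : ℕ} (hn : (φ ^ 2 - 1) ^ n < 1 / 1000) : 0 < (U n).1 := by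
  obtain ⟨h1, h2⟩ := phi_bounds hφ
  have hsU : sq φ (U n) ≤ 1 ^ 2 := by
    refine (sq_U_le hφ n).trans ?_
    rw [div_le_iff₀ (by norm_num)]
    linarith
  have r2 := Rw_close hφ (U n) zero_le_one hsU
  rw [Rw_U hφ, abs_le] at r2
  have h6 := pow_phi_eq hφ n
  have hφn : 0 < φ ^ n := pow_pos (by linarith) n
  have h7 : 1000 < φ ^ n := by
    have hpn : 0 < (φ ^ 2 - 1) ^ n := pow_pos (by nlinarith) n
    by_contra hcon
    push Not at hcon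
    nlinarith
  have hk := kap_pos hφ
  by_contra hcon
  push Not at hcon
  have : kap φ * ((U n).1 : ℝ) ≤ 0 := mul_nonpos_of_nonneg_of_nonpos hk.le (by exact_mod_cast hcon)
  linarith [r2.2]

lemma m_cast (hφ : φ ^ 3 = φ + 1) {n : ℕ} (hn : (φ ^ 2 - 1) ^ n < 1 / 1000) :
    ((m n : ℕ) : ℤ) = (U n).1 := Int.toNat_of_nonneg (U_pos hφ hn).le

lemma small_succ (hφ : φ ^ 3 = φ + 1) {n : ℕ} (hn : (φ ^ 2 - 1) ^ n < 1 / 1000) :
    (φ ^ 2 - 1) ^ (n + 1) < 1 / 1000 := by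
  obtain ⟨h1, h2⟩ := phi_bounds hφ
  have hp1 : φ ^ 2 - 1 < 1 := by nlinarith
  have hp0 : 0 < φ ^ 2 - 1 := by nlinarith
  have := pow_pos hp0 n
  rw [pow_succ]; nlinarith

lemma dst_lt (hφ : φ ^ 3 = φ + 1) {n : ℕ} (hn : (φ ^ 2 - 1) ^ n < 1 / 1000) {k : ℕ} (hk : 0 < k)
    (hk2 : k ≤ m n) : dst (eucl 1 0 1) (th φ) (m (n + 1)) < dst (eucl 1 0 1) (th φ) k := by
  obtain ⟨a, b, hab⟩ := dst_attained hN (th φ) k
  have h1 := gap hφ hn (w := ((k : ℤ), a, b))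
    (fun h => by have := congrArg Prod.fst h; simp at this; omega) (by simp)
    (by rw [← m_cast hφ hn]; exact Int.ofNat_le.mpr hk2)
  have h2 := sq_U_le hφ (n + 1)
  have h3 := dst_le hN (th φ) (m (n + 1)) (U (n + 1)).2.1 (U (n + 1)).2.2
  rw [m_cast hφ (small_succ hφ hn)] at h3
  have h4 : ((U (n + 1)).1, (U (n + 1)).2.1, (U (n + 1)).2.2) = U (n + 1) := rfl
  rw [h4] at h3
  rw [← hab]
  refine h3.trans_lt ?_
  apply lt_of_pow_lt_pow_left₀ 2 (hN.nonneg _)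
  rw [eucl_sq, eucl_sq]
  linarith

lemma m_lt (hφ : φ ^ 3 = φ + 1) {n : ℕ} (hn : (φ ^ 2 - 1) ^ n < 1 / 1000) : m n < m (n + 1) := by
  by_contra hcon
  push Not at hcon
  have hpos : 0 < m (n + 1) := by
    have := U_pos hφ (small_succ hφ hn)
    rw [← m_cast hφ (small_succ hφ hn)] at this
    exact_mod_cast this
  exact lt_irrefl _ (dst_lt hφ hn hpos hcon)

lemma exists_best (hφ : φ ^ 3 = φ + 1) {n : ℕ} (hn : (φ ^ 2 - 1) ^ n < 1 / 1000) :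
    ∃ k, IsBest (eucl 1 0 1) (th φ) k ∧ m n < k ∧ k ≤ m (n + 1) := by
  classical
  have hpos : 0 < m (n + 1) := lt_of_le_of_lt (Nat.zero_le _) (m_lt hφ hn)
  have hex : ∃ k, 0 < k ∧ dst (eucl 1 0 1) (th φ) k ≤ dst (eucl 1 0 1) (th φ) (m (n + 1)) :=
    ⟨m (n + 1), hpos, le_rfl⟩
  refine ⟨Nat.find hex, ⟨(Nat.find_spec hex).1, fun j hj1 hj2 => ?_⟩, ?_, Nat.find_min' hex ⟨hpos, le_rfl⟩⟩
  · have h1 := Nat.find_min hex hj2
    push Not at h1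
    exact (Nat.find_spec hex).2.trans_lt (h1 hj1)
  · by_contra hcon
    push Not at hcon
    have := dst_lt hφ hn (Nat.find_spec hex).1 hcon
    exact absurd (Nat.find_spec hex).2 (not_le.mpr this)

/-- The upper bound for the special point. -/
theorem upper (hφ : φ ^ 3 = φ + 1) :
    ∃ C : ℝ, 0 < C ∧ ∀ ν, (M (eucl 1 0 1) (th φ) ν : ℝ) ≤ C * φ ^ ν := by
  obtain ⟨b1, b2⟩ := phi_bounds hφ
  obtain ⟨n1, hn1⟩ := exists_small hφ
  have hθ := admissible hφ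
  have hM : ∀ ν, M (eucl 1 0 1) (th φ) ν ≤ m (n1 + ν + 1) := by
    intro ν
    induction ν with
    | zero =>
      obtain ⟨k, hk1, hk2, hk3⟩ := exists_best hφ (hn1 n1 le_rfl)
      refine le_trans ?_ hk3
      unfold M
      rw [Nat.nth_zero]
      exact Nat.sInf_le hk1
    | succ ν ih =>
      obtain ⟨k, hk1, hk2, hk3⟩ := exists_best hφ (hn1 (n1 + ν + 1) (by omega))
      exact (M_succ_le hN (th φ) hθ hk1 (by omega)).trans hk3
  have hk := kap_pos hφ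
  have hm : ∀ n, n1 ≤ n → (m n : ℝ) ≤ 11 / kap φ * φ ^ n := by
    intro n hn
    have hs := hn1 n hn
    have hsU : sq φ (U n) ≤ 1 ^ 2 := by
      refine (sq_U_le hφ n).trans ?_
      rw [div_le_iff₀ (by norm_num)]
      linarith
    have r2 := Rw_close hφ (U n) zero_le_one hsU
    rw [Rw_U hφ, abs_le] at r2
    have h1 : ((m n : ℕ) : ℝ) = ((U n).1 : ℝ) := by exact_mod_cast m_cast hφ hs
    rw [h1, div_mul_eq_mul_div, le_div_iff₀ hk]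
    have h2 : 1 ≤ φ ^ n := one_le_pow₀ (by linarith)
    linarith [r2.1]
  refine ⟨11 / kap φ * φ ^ (n1 + 1), by positivity, fun ν => ?_⟩
  calc (M (eucl 1 0 1) (th φ) ν : ℝ) ≤ m (n1 + ν + 1) := by exact_mod_cast hM ν
    _ ≤ 11 / kap φ * φ ^ (n1 + ν + 1) := hm _ (by omega)
    _ = 11 / kap φ * φ ^ (n1 + 1) * φ ^ ν := by rw [show n1 + ν + 1 = (n1 + 1) + ν by ring, pow_add]; ring

end Plastic

end Pool.Agent.Helper224.BestApprox
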